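import Pool.Agent.Q7.LK.Stm

/-!
# Project LK (helper7): embeddings of number fields in the algebraic closure of `ℚ_p`
-/

set_option autoImplicit false

namespace Pool.Agent.Q150.LK

open NumberField IsDedekindDomain Finset

section

variable {p : ℕ} [Fact p.Prime]

theorem norm_aut (τ : PadicAlgCl p ≃ₐ[ℚ_[p]] PadicAlgCl p) (x : PadicAlgCl p) : ‖τ x‖ = ‖x‖ :=
  (spectralNorm_eq_of_equiv τ x).symm

theorem norm_int_cast (D : ℤ) : ‖(D : PadicAlgCl p)‖ = ‖(D : ℚ_[p])‖ := by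
  rw [← map_intCast (algebraMap ℚ_[p] (PadicAlgCl p)) D]
  exact PadicAlgCl.norm_extends p _

theorem norm_int_le_one (D : ℤ) : ‖(D : PadicAlgCl p)‖ ≤ 1 := by
  rw [norm_int_cast]
  exact Padic.norm_int_le_one D

theorem norm_nat_le_one (D : ℕ) : ‖(D : PadicAlgCl p)‖ ≤ 1 := by
  have := norm_int_le_one (p := p) (D : ℤ)
  rwa [Int.cast_natCast] at this

theorem norm_p : ‖(p : PadicAlgCl p)‖ = (p : ℝ)⁻¹ := by
  have h := norm_int_cast (p := p) (p : ℤ)
  rw [Int.cast_natCast, Int.cast_natCast] at h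
  rw [h]
  exact Padic.norm_p

theorem norm_p_lt : ‖(p : PadicAlgCl p)‖ < 1 := by
  rw [norm_p]
  exact inv_lt_one_of_one_lt₀ (by exact_mod_cast (Fact.out : p.Prime).one_lt)

theorem norm_p_pos : 0 < ‖(p : PadicAlgCl p)‖ := by
  rw [norm_p]
  exact inv_pos.2 (by exact_mod_cast (Fact.out : p.Prime).pos)

theorem norm_sub_le' (x y : PadicAlgCl p) : ‖x - y‖ ≤ max ‖x‖ ‖y‖ := by
  have h := IsUltrametricDist.norm_add_le_max x (-y)
  rwa [norm_neg, ← sub_eq_add_neg] at h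

theorem norm_eq_of_sub_lt {x y : PadicAlgCl p} (h : ‖x - y‖ < ‖y‖) : ‖x‖ = ‖y‖ := by
  have h1 : ‖x - y‖ ≠ ‖y‖ := h.ne
  have h2 := IsUltrametricDist.norm_add_eq_max_of_norm_ne_norm h1
  rw [sub_add_cancel, max_eq_right h.le] at h2
  exact h2

/-- zeros of monic polynomials with integral coefficients are integral -/
theorem norm_root_le {P : Polynomial ℤ} (hp : P.Monic) {x : PadicAlgCl p}
    (hx : Polynomial.eval₂ (Int.castRingHom (PadicAlgCl p)) x P = 0) : ‖x‖ ≤ 1 := by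
  by_contra hcon
  rw [not_le] at hcon
  rw [Polynomial.eval₂_eq_sum_range, Finset.sum_range_succ] at hx
  have hlc : P.coeff P.natDegree = 1 := hp
  rw [hlc, map_one, one_mul] at hx
  have h1 : x ^ P.natDegree =
      -∑ i ∈ Finset.range P.natDegree, (Int.castRingHom (PadicAlgCl p)) (P.coeff i) * x ^ i := by
    linear_combination hx
  rcases Nat.eq_zero_or_pos P.natDegree with h0 | h0
  · rw [h0] at h1
    simp at h1
  · have h2 : ‖∑ i ∈ Finset.range P.natDegree,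
        (Int.castRingHom (PadicAlgCl p)) (P.coeff i) * x ^ i‖ ≤ ‖x‖ ^ (P.natDegree - 1) := by
      refine IsUltrametricDist.norm_sum_le_of_forall_le_of_nonneg (by positivity) fun i hi => ?_
      rw [Finset.mem_range] at hi
      rw [norm_mul, norm_pow]
      have h3 : ‖(Int.castRingHom (PadicAlgCl p)) (P.coeff i)‖ ≤ 1 := norm_int_le_one _
      have h4 : ‖x‖ ^ i ≤ ‖x‖ ^ (P.natDegree - 1) := pow_le_pow_right₀ hcon.le (by omega)
      calc _ ≤ 1 * ‖x‖ ^ (P.natDegree - 1) :=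
            mul_le_mul h3 h4 (by positivity) zero_le_one
        _ = _ := one_mul _
    have h3 : ‖x‖ ^ P.natDegree ≤ ‖x‖ ^ (P.natDegree - 1) := by
      rw [← norm_pow, h1, norm_neg]
      exact h2
    have h4 : ‖x‖ ^ (P.natDegree - 1) < ‖x‖ ^ P.natDegree := pow_lt_pow_right₀ hcon (by omega)
    exact absurd h3 (not_le.2 h4)

end

section

variable {p : ℕ} [Fact p.Prime] {E : Type} [Field E] [NumberField E]

theorem norm_int_le (σ : E →+* PadicAlgCl p) (x : 𝓞 E) : ‖σ (x : E)‖ ≤ 1 := by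
  obtain ⟨P, hP, hx⟩ : IsIntegral ℤ (x : E) := RingOfIntegers.isIntegral_coe x
  refine norm_root_le hP ?_
  have h1 := congrArg σ hx
  rw [map_zero, Polynomial.hom_eval₂] at h1
  have e : σ.comp (algebraMap ℤ E) = Int.castRingHom (PadicAlgCl p) := RingHom.ext_int _ _
  rw [e] at h1
  exact h1

theorem s_add (σ : E →+* PadicAlgCl p) (a b : 𝓞 E) : σ ((a + b : 𝓞 E) : E) = σ (a : E) + σ (b : E) :=
  map_add σ (a : E) (b : E)

theorem s_mul (σ : E →+* PadicAlgCl p) (a b : 𝓞 E) : σ ((a * b : 𝓞 E) : E) = σ (a : E) * σ (b : E) :=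
  map_mul σ (a : E) (b : E)

theorem s_zero (σ : E →+* PadicAlgCl p) : σ ((0 : 𝓞 E) : E) = 0 := map_zero σ

theorem s_one (σ : E →+* PadicAlgCl p) : σ ((1 : 𝓞 E) : E) = 1 := map_one σ

/-- the integers whose image has norm at most `t` -/
def IdL (σ : E →+* PadicAlgCl p) (t : ℝ) (ht : 0 ≤ t) : Ideal (𝓞 E) where
  carrier := {x | ‖σ (x : E)‖ ≤ t}
  add_mem' {a b} ha hb := by
    change ‖σ ((a + b : 𝓞 E) : E)‖ ≤ t
    rw [s_add]
    exact (IsUltrametricDist.norm_add_le_max _ _).trans (max_le ha hb)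
  zero_mem' := by
    change ‖σ ((0 : 𝓞 E) : E)‖ ≤ t
    rw [s_zero, norm_zero]
    exact ht
  smul_mem' c x hx := by
    change ‖σ ((c * x : 𝓞 E) : E)‖ ≤ t
    rw [s_mul, norm_mul]
    exact (mul_le_of_le_one_left (norm_nonneg _) (norm_int_le σ c)).trans hx

/-- the prime ideal of an embedding -/
def PI (σ : E →+* PadicAlgCl p) : Ideal (𝓞 E) where
  carrier := {x | ‖σ (x : E)‖ < 1}
  add_mem' {a b} ha hb := by
    change ‖σ ((a + b : 𝓞 E) : E)‖ < 1
    rw [s_add]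
    exact lt_of_le_of_lt (IsUltrametricDist.norm_add_le_max _ _) (max_lt ha hb)
  zero_mem' := by
    change ‖σ ((0 : 𝓞 E) : E)‖ < 1
    rw [s_zero, norm_zero]
    exact one_pos
  smul_mem' c x hx := by
    change ‖σ ((c * x : 𝓞 E) : E)‖ < 1
    rw [s_mul, norm_mul]
    exact lt_of_le_of_lt (mul_le_of_le_one_left (norm_nonneg _) (norm_int_le σ c)) hx

theorem mem_PI {σ : E →+* PadicAlgCl p} {x : 𝓞 E} : x ∈ PI σ ↔ ‖σ (x : E)‖ < 1 := Iff.rfl

theorem PI_prime (σ : E →+* PadicAlgCl p) : (PI σ).IsPrime := by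
  constructor
  · intro h
    have h1 : (1 : 𝓞 E) ∈ PI σ := by rw [h]; trivial
    rw [mem_PI, s_one, norm_one] at h1
    exact lt_irrefl _ h1
  · intro x y hxy
    rw [mem_PI, s_mul, norm_mul] at hxy
    by_contra hcon
    push Not at hcon
    have h1 : 1 ≤ ‖σ (x : E)‖ := not_lt.1 hcon.1
    have h2 : 1 ≤ ‖σ (y : E)‖ := not_lt.1 hcon.2
    exact absurd hxy (not_lt.2 (one_le_mul_of_one_le_of_one_le h1 h2))

/-- powers of the prime ideal are small -/
theorem PI_pow (σ : E →+* PadicAlgCl p) (ε : ℝ) (hε : 0 < ε) : ∃ n₀ : ℕ, ∀ x ∈ PI σ ^ n₀,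
    ‖σ (x : E)‖ ≤ ε := by
  obtain ⟨s, hs⟩ := (isNoetherian_def.1 (inferInstance : IsNoetherian (𝓞 E) (𝓞 E))) (PI σ)
  obtain ⟨r, hr0, hr1, hr⟩ : ∃ r : ℝ, 0 ≤ r ∧ r < 1 ∧ ∀ g ∈ s, ‖σ (g : E)‖ ≤ r := by
    have hg : ∀ g ∈ s, ‖σ (g : E)‖ < 1 := by
      intro g hg
      have h1 : g ∈ PI σ := by
        rw [← hs]
        exact Submodule.subset_span hg
      exact h1
    rcases s.eq_empty_or_nonempty with h | h
    · exact ⟨0, le_rfl, one_pos, by rw [h]; simp⟩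
    · obtain ⟨g0, hg0, hmax⟩ := Finset.exists_max_image s (fun g => ‖σ (g : E)‖) h
      exact ⟨‖σ (g0 : E)‖, norm_nonneg _, hg g0 hg0, hmax⟩
  have hle : PI σ ≤ IdL σ r hr0 := by
    rw [← hs, Submodule.span_le]
    exact fun g hg => hr g hg
  have hpow : ∀ n : ℕ, IdL σ r hr0 ^ n ≤ IdL σ (r ^ n) (by positivity) := by
    intro n
    induction n with
    | zero =>
      intro x _
      change ‖σ (x : E)‖ ≤ r ^ 0
      rw [pow_zero]
      exact norm_int_le σ x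
    | succ n ih =>
      rw [pow_succ]
      refine (Ideal.mul_mono_left ih).trans ?_
      rw [Ideal.mul_le]
      intro x hx y hy
      change ‖σ ((x * y : 𝓞 E) : E)‖ ≤ r ^ (n + 1)
      rw [s_mul, norm_mul, pow_succ]
      exact mul_le_mul hx hy (norm_nonneg _) (by positivity)
  obtain ⟨n₀, hn₀⟩ := exists_pow_lt_of_lt_one hε hr1
  refine ⟨n₀, fun x hx => ?_⟩
  have h1 : x ∈ IdL σ (r ^ n₀) (by positivity) := hpow n₀ (Ideal.pow_right_mono hle n₀ hx)
  exact (h1 : ‖σ (x : E)‖ ≤ r ^ n₀).trans hn₀.le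

/-- The primes above `p` come from embeddings. -/
theorem exists_emb (v : HeightOneSpectrum (𝓞 E)) (hv : (p : 𝓞 E) ∈ v.asIdeal) :
    ∃ σ : E →+* PadicAlgCl p, v.asIdeal = PI σ := by
  classical
  by_contra hcon
  push Not at hcon
  have hne : ∀ σ : E →+* PadicAlgCl p, ¬ v.asIdeal ≤ PI σ := by
    intro σ hle
    exact hcon σ (v.isMaximal.eq_of_le (PI_prime σ).ne_top hle)
  have hav : ¬ ((v.asIdeal : Set (𝓞 E)) ⊆ ⋃ σ ∈ ((Finset.univ : Finset (E →+* PadicAlgCl p)) :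
      Set (E →+* PadicAlgCl p)), ((PI σ : Ideal (𝓞 E)) : Set (𝓞 E))) := by
    intro h
    rw [Ideal.subset_union_prime (Classical.arbitrary _) (Classical.arbitrary _)
      (fun σ _ _ _ => PI_prime σ)] at h
    obtain ⟨σ, -, h⟩ := h
    exact hne σ h
  rw [Set.not_subset] at hav
  obtain ⟨a, hav, ha⟩ := hav
  have ha1 : ∀ σ : E →+* PadicAlgCl p, ‖σ (a : E)‖ = 1 := by
    intro σ
    refine le_antisymm (norm_int_le σ a) (not_lt.1 fun h => ha ?_)
    rw [Set.mem_iUnion₂]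
    exact ⟨σ, by simp, h⟩
  have hnorm : ‖algebraMap ℚ (PadicAlgCl p) (Algebra.norm ℚ (a : E))‖ = 1 := by
    rw [Algebra.norm_eq_prod_embeddings ℚ (PadicAlgCl p) (a : E), norm_prod]
    exact Finset.prod_eq_one fun τ _ => ha1 τ.toRingHom
  obtain ⟨n, hn⟩ : ∃ n : ℕ, n = Ideal.absNorm (Ideal.span {a}) := ⟨_, rfl⟩
  have hnv : (n : 𝓞 E) ∈ v.asIdeal := by
    have h1 := Ideal.absNorm_mem (Ideal.span {a})
    rw [← hn] at h1
    exact (Ideal.span_singleton_le_iff_mem _).2 hav h1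
  have hpn : p ∣ n := by
    by_contra h
    have h1 : Nat.Coprime p n := (Nat.Prime.coprime_iff_not_dvd Fact.out).2 h
    obtain ⟨x, y, hxy⟩ := (Nat.isCoprime_iff_coprime.2 h1)
    have h2 := congrArg (fun z : ℤ => (z : 𝓞 E)) hxy
    push_cast at h2
    apply v.isPrime.ne_top
    rw [Ideal.eq_top_iff_one, ← h2]
    exact add_mem (Ideal.mul_mem_left _ _ hv) (Ideal.mul_mem_left _ _ hnv)
  have h1 : ‖algebraMap ℚ (PadicAlgCl p) (Algebra.norm ℚ (a : E))‖ = ‖(n : PadicAlgCl p)‖ := by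
    rw [hn, Ideal.absNorm_span_singleton, ← Algebra.coe_norm_int, map_intCast]
    rcases Int.natAbs_eq (Algebra.norm ℤ a) with h | h
    · have h2 := congrArg (fun z : ℤ => (z : PadicAlgCl p)) h
      simp only [Int.cast_natCast] at h2
      rw [← h2]
    · have h2 := congrArg (fun z : ℤ => (z : PadicAlgCl p)) h
      simp only [Int.cast_neg, Int.cast_natCast] at h2
      rw [← norm_neg ((((Algebra.norm ℤ) a).natAbs : ℕ) : PadicAlgCl p), ← h2]
  rw [hnorm] at h1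
  obtain ⟨m, rfl⟩ := hpn
  rw [Nat.cast_mul, norm_mul] at h1
  have h2 : ‖(p : PadicAlgCl p)‖ * ‖(m : PadicAlgCl p)‖ ≤ ‖(p : PadicAlgCl p)‖ * 1 :=
    mul_le_mul_of_nonneg_left (norm_nat_le_one m) (norm_nonneg _)
  have h3 := norm_p_lt (p := p)
  linarith

/-- comparison of the valuation and the norm -/
theorem val_lt_one {v : HeightOneSpectrum (𝓞 E)} {σ : E →+* PadicAlgCl p} (hσ : v.asIdeal = PI σ)
    {x : E} (hx : ‖σ x‖ < 1) : v.valuation E x < 1 := by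
  by_contra hcon
  rw [not_lt] at hcon
  have hx0 : x ≠ 0 := by
    rintro rfl
    rw [map_zero] at hcon
    exact absurd hcon (by simp)
  have h1 : v.valuation E x⁻¹ ≤ 1 := by
    rw [map_inv₀]
    exact inv_le_one_of_one_le₀ hcon
  obtain ⟨a, s, has⟩ := HeightOneSpectrum.exists_primeCompl_mul_eq_of_integer v x⁻¹ h1
  have hs : (s : 𝓞 E) ∉ v.asIdeal := s.2
  have hs1 : ‖σ (((s : 𝓞 E)) : E)‖ = 1 := by
    refine le_antisymm (norm_int_le σ _) (not_lt.1 fun h => hs ?_)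
    exact hσ.ge h
  have h2 := congrArg (fun z => ‖σ z‖) has
  simp only [map_mul, map_inv₀, norm_mul, norm_inv] at h2
  have h3 : ‖σ (algebraMap (𝓞 E) E a)‖ ≤ 1 := norm_int_le σ a
  have h4 : ‖σ (algebraMap (𝓞 E) E (s : 𝓞 E))‖ = 1 := hs1
  have h5 : 1 < ‖σ x‖⁻¹ := (one_lt_inv₀ (norm_pos_iff.2 ((map_ne_zero σ).2 hx0))).2 hx
  rw [h4] at h2
  linarith

theorem val_lt_p {v : HeightOneSpectrum (𝓞 E)} {σ : E →+* PadicAlgCl p} (hσ : v.asIdeal = PI σ)
    {x : E} (hx : ‖σ x‖ < ‖(p : PadicAlgCl p)‖ ^ 2) :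
    v.valuation E x < v.valuation E ((p : E) ^ 2) := by
  have hp : (p : E) ≠ 0 := by exact_mod_cast (Fact.out : p.Prime).ne_zero
  have h1 : ‖σ (x / (p : E) ^ 2)‖ < 1 := by
    rw [map_div₀, norm_div, map_pow, map_natCast, norm_pow, div_lt_one (pow_pos norm_p_pos 2)]
    exact hx
  have h2 := val_lt_one hσ h1
  have h3 : v.valuation E ((p : E) ^ 2) ≠ 0 := (Valuation.ne_zero_iff _).2 (pow_ne_zero 2 hp)
  rw [map_div₀] at h2
  rwa [div_lt_one₀ (zero_lt_iff.2 h3)] at h2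

end

end Pool.Agent.Q150.LK
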