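import Pool.Agent.Q150.LK.Kum

/-!
# Project LK (helper7), job CR2LB

The condition at the primes `v` above `p` which divide `I`, `d` not a local `p`-th power.  Everything is done
in the algebraic closure of `ℚ_p`.
-/

set_option autoImplicit false

namespace Pool.Agent.Q150.LK

open NumberField IsDedekindDomain Finset
open Pool.Agent.Q7.LK

section

variable {p : ℕ} [Fact p.Prime]

/-- products of elements close to each other -/
theorem prod_close {α : Type*} (s : Finset α) (a b : α → PadicAlgCl p) {ε : ℝ} (hε : 0 ≤ ε)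
    (ha : ∀ i ∈ s, ‖a i‖ ≤ 1) (hb : ∀ i ∈ s, ‖b i‖ ≤ 1) (h : ∀ i ∈ s, ‖a i - b i‖ ≤ ε) :
    ‖∏ i ∈ s, a i - ∏ i ∈ s, b i‖ ≤ ε := by
  classical
  induction s using Finset.induction_on with
  | empty => simpa using hε
  | insert i s hi ih =>
    have h1 := ih (fun j hj => ha j (mem_insert_of_mem hj)) (fun j hj => hb j (mem_insert_of_mem hj))
      (fun j hj => h j (mem_insert_of_mem hj))
    rw [Finset.prod_insert hi, Finset.prod_insert hi]
    have e : a i * ∏ j ∈ s, a j - b i * ∏ j ∈ s, b j =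
        a i * (∏ j ∈ s, a j - ∏ j ∈ s, b j) + (a i - b i) * ∏ j ∈ s, b j := by ring
    rw [e]
    refine (IsUltrametricDist.norm_add_le_max _ _).trans (max_le ?_ ?_)
    · rw [norm_mul]
      exact (mul_le_of_le_one_left (norm_nonneg _) (ha i (mem_insert_self _ _))).trans h1
    · rw [norm_mul, norm_prod]
      have h2 : ∏ j ∈ s, ‖b j‖ ≤ 1 :=
        Finset.prod_le_one (fun j _ => norm_nonneg _) fun j hj => hb j (mem_insert_of_mem hj)
      exact (mul_le_of_le_one_right (norm_nonneg _) h2).trans (h i (mem_insert_self _ _))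

/-- a root of unity close to `1` is `1` -/
theorem root_one {n : ℕ} {c : PadicAlgCl p} (hc : c ^ n = 1) (h : ‖c - 1‖ < ‖(n : PadicAlgCl p)‖) :
    c = 1 := by
  by_contra hne
  have hn : ‖(n : PadicAlgCl p)‖ ≤ 1 := norm_nat_le_one n
  have hc1 : ‖c‖ ≤ 1 := by
    have h1 : ‖c‖ = ‖(1 : PadicAlgCl p)‖ := norm_eq_of_sub_lt (by
      rw [norm_one]; exact h.trans_le hn)
    rw [h1, norm_one]
  have h1 : ∑ i ∈ range n, c ^ i = 0 := by
    have h2 := geom_sum_mul c n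
    rw [hc, sub_self] at h2
    exact (mul_eq_zero.1 h2).resolve_right (sub_ne_zero.2 hne)
  have h2 : (n : PadicAlgCl p) = - ∑ i ∈ range n, (c ^ i - 1) := by
    rw [Finset.sum_sub_distrib, h1, Finset.sum_const, Finset.card_range, nsmul_eq_mul]
    ring
  have h3 : ∀ i : ℕ, ‖c ^ i - 1‖ ≤ ‖c - 1‖ := by
    intro i
    have h4 := prod_close (range i) (fun _ => c) (fun _ => 1) (norm_nonneg (c - 1))
      (fun _ _ => hc1) (fun _ _ => norm_one.le) (fun _ _ => le_rfl)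
    simpa using h4
  have h4 : ‖(n : PadicAlgCl p)‖ ≤ ‖c - 1‖ := by
    rw [h2, norm_neg]
    exact IsUltrametricDist.norm_sum_le_of_forall_le_of_nonneg (norm_nonneg _) fun i _ => h3 i
  exact absurd h (not_lt.2 h4)

/-- an element with power close to `1` is close to a root of unity -/
theorem close_root {n : ℕ} (hn : 0 < n) (x : PadicAlgCl p) {ε : ℝ} (hε : 0 ≤ ε)
    (h : ‖x ^ n - 1‖ ≤ ε ^ n) : ∃ ξ : PadicAlgCl p, ξ ^ n = 1 ∧ ‖x - ξ‖ ≤ ε := by
  have : NeZero (n : PadicAlgCl p) := ⟨by exact_mod_cast hn.ne'⟩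
  obtain ⟨ξ0, hξ0⟩ := HasEnoughRootsOfUnity.exists_primitiveRoot (PadicAlgCl p) n
  by_contra hcon
  push Not at hcon
  have h1 := congrArg (Polynomial.eval x) (Polynomial.X_pow_sub_one_eq_prod hn hξ0)
  rw [Polynomial.eval_prod] at h1
  simp only [Polynomial.eval_sub, Polynomial.eval_pow, Polynomial.eval_X, Polynomial.eval_one,
    Polynomial.eval_C] at h1
  rw [h1, norm_prod] at h
  have h2 : ∀ ξ ∈ Polynomial.nthRootsFinset n (1 : PadicAlgCl p), ε < ‖x - ξ‖ := by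
    intro ξ hξ
    exact hcon ξ ((Polynomial.mem_nthRootsFinset hn _).1 hξ)
  have h3 : ε ^ n < ∏ ξ ∈ Polynomial.nthRootsFinset n (1 : PadicAlgCl p), ‖x - ξ‖ := by
    rcases hε.eq_or_lt with h0 | h0
    · rw [← h0, zero_pow hn.ne']
      exact Finset.prod_pos fun ξ hξ => by rw [h0]; exact h2 ξ hξ
    · have h4 : ε ^ n = ∏ _ξ ∈ Polynomial.nthRootsFinset n (1 : PadicAlgCl p), ε := by
        rw [Finset.prod_const, hξ0.card_nthRootsFinset]
      rw [h4]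
      refine Finset.prod_lt_prod_of_nonempty (fun _ _ => h0) h2 ?_
      rw [← Finset.card_pos, hξ0.card_nthRootsFinset]
      exact hn
  exact absurd h (not_le.2 h3)

/-- the elementary number theory -/
theorem sum_pow_not_dvd (hp2 : p ≠ 2) {s : ℕ} (hs : (p : ℤ) ∣ (s : ℤ) - 1) :
    ¬ p ^ 2 ∣ ∑ i ∈ range p, s ^ i := by
  obtain ⟨m, hm⟩ := hs
  have hp : p.Prime := Fact.out
  have hs : (s : ℤ) = 1 + p * m := by linarith
  have h1 : ∀ i : ℕ, (s : ℤ) ^ i ≡ 1 + i * (p * m) [ZMOD (p : ℤ) ^ 2] := by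
    intro i
    induction i with
    | zero => simp
    | succ i ih =>
      rw [pow_succ (s : ℤ) i]
      refine (ih.mul_right _).trans ?_
      rw [hs, Int.modEq_iff_dvd]
      refine ⟨- i * m ^ 2, ?_⟩
      push_cast
      ring
  intro hdvd
  have h2 : ((∑ i ∈ range p, s ^ i : ℕ) : ℤ) ≡ p [ZMOD (p : ℤ) ^ 2] := by
    have h3 : ((∑ i ∈ range p, s ^ i : ℕ) : ℤ) ≡ ∑ i ∈ range p, (1 + (i : ℤ) * (p * m))
        [ZMOD (p : ℤ) ^ 2] := by
      push_cast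
      exact Int.ModEq.sum fun i _ => h1 i
    refine h3.trans ?_
    obtain ⟨k, hk⟩ := hp.odd_of_ne_two hp2
    have h4 : ∑ i ∈ range p, (i : ℤ) = p * k := by
      have h5 : ∑ i ∈ range p, i = p * k := by
        have h6 := Finset.sum_range_id_mul_two p
        have h7 : p - 1 = 2 * k := by omega
        rw [h7] at h6
        have : p * (2 * k) = (p * k) * 2 := by ring
        omega
      rw [← Nat.cast_sum, h5, Nat.cast_mul]
    rw [Finset.sum_add_distrib, ← Finset.sum_mul, h4, Finset.sum_const, Finset.card_range,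
      nsmul_eq_mul, mul_one, Int.modEq_iff_dvd]
    refine ⟨- (k * m), ?_⟩
    ring
  have h3 : (p : ℤ) ^ 2 ∣ (p : ℤ) := by
    have h4 : ((p : ℤ) ^ 2) ∣ ((∑ i ∈ range p, s ^ i : ℕ) : ℤ) := by exact_mod_cast hdvd
    exact (Int.ModEq.dvd_iff h2).1 h4
  have h4 : p ^ 2 ∣ p := by exact_mod_cast h3
  have h5 := Nat.le_of_dvd hp.pos h4
  have h6 := hp.two_le
  nlinarith

end

section

variable {p : ℕ} [Fact p.Prime] {F : Type} [Field F] [NumberField F]

/-- the closure of the image of `F` -/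
theorem mem_adjoin_close (τ : F →+* PadicAlgCl p) {b : PadicAlgCl p}
    (hb : b ∈ IntermediateField.adjoin ℚ_[p] (Set.range τ)) {ε : ℝ} (hε : 0 < ε) :
    ∃ x : F, ‖b - τ x‖ < ε := by
  let S : Subfield (PadicAlgCl p) := τ.fieldRange.topologicalClosure
  have hS : ∀ b : PadicAlgCl p, b ∈ S ↔ ∀ ε : ℝ, 0 < ε → ∃ x : F, ‖b - τ x‖ < ε := by
    intro b
    change b ∈ closure (τ.fieldRange : Set (PadicAlgCl p)) ↔ _
    rw [Metric.mem_closure_iff]
    constructor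
    · intro h ε hε
      obtain ⟨c, ⟨x, hx⟩, hc⟩ := h ε hε
      refine ⟨x, ?_⟩
      rw [← hx, dist_eq_norm] at hc
      exact hc
    · intro h ε hε
      obtain ⟨x, hx⟩ := h ε hε
      exact ⟨τ x, ⟨x, rfl⟩, by rw [dist_eq_norm]; exact hx⟩
  have hQ : ∀ q : ℚ_[p], algebraMap ℚ_[p] (PadicAlgCl p) q ∈ S := by
    intro q
    rw [hS]
    intro ε hε
    obtain ⟨r, hr⟩ := Padic.rat_dense p q hε
    refine ⟨(r : F), ?_⟩
    have e : τ (r : F) = algebraMap ℚ_[p] (PadicAlgCl p) (r : ℚ_[p]) := by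
      rw [map_ratCast, map_ratCast]
    rw [e, ← map_sub]
    exact (PadicAlgCl.norm_extends p _).trans_lt hr
  have h1 : IntermediateField.adjoin ℚ_[p] (Set.range τ) ≤ S.toIntermediateField hQ := by
    rw [IntermediateField.adjoin_le_iff]
    rintro _ ⟨x, rfl⟩
    exact Subfield.le_topologicalClosure _ ⟨x, rfl⟩
  exact (hS b).1 (h1 hb) ε hε

theorem exists_aut (K : IntermediateField ℚ_[p] (PadicAlgCl p)) {x : PadicAlgCl p} (hx : x ∉ K) :
    ∃ τ : PadicAlgCl p ≃ₐ[ℚ_[p]] PadicAlgCl p, (∀ y ∈ K, τ y = y) ∧ τ x ≠ x := by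
  by_contra hcon
  push Not at hcon
  apply hx
  rw [← InfiniteGalois.fixedField_fixingSubgroup K]
  intro τ
  exact hcon τ.1 (fun y hy => τ.2 ⟨y, hy⟩)

/-- closeness to `1` implies `Lpw` -/
theorem lpw_of_close (hB : S_BAS) {v : HeightOneSpectrum (𝓞 F)} {τ : F →+* PadicAlgCl p}
    (hτ : v.asIdeal = PI τ) {a x : F} (h : ‖τ (a * x ^ p) - 1‖ < ‖(p : PadicAlgCl p)‖ ^ 2) :
    Lpw p v a := by
  obtain ⟨-, -, -, -, -, h6, -⟩ := hB p F v
  apply h6 a x
  apply val_lt_p hτ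
  rw [map_sub, map_one]
  exact h

variable {L : Type} [Field L] [NumberField L] [Algebra F L]

theorem ext_emb (σ : F →+* PadicAlgCl p) : ∃ τ : L →+* PadicAlgCl p,
    ∀ x : F, τ (algebraMap F L x) = σ x := by
  letI : Algebra F (PadicAlgCl p) := σ.toAlgebra
  have : Module.Finite F L := Module.Finite.of_restrictScalars_finite ℚ F L
  have : Algebra.IsAlgebraic F L := Algebra.IsAlgebraic.of_finite F L
  let f : L →ₐ[F] PadicAlgCl p := IsAlgClosed.lift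
  exact ⟨f.toRingHom, f.commutes⟩

/-- the elements of `(I 𝓞 L)^N` are small -/
theorem small_of_mem {τ0 : F →+* PadicAlgCl p} {τ : L →+* PadicAlgCl p}
    (hτ : ∀ x : F, τ (algebraMap F L x) = τ0 x) {I : Ideal (𝓞 F)} (hI : I ≤ PI τ0) {ε : ℝ}
    (hε : 0 < ε) : ∃ N : ℕ, ∀ x ∈ I.map (algebraMap (𝓞 F) (𝓞 L)) ^ N, ‖τ ((x : 𝓞 L) : L)‖ ≤ ε := by
  obtain ⟨N, hN⟩ := PI_pow τ0 ε hε
  refine ⟨N, fun x hx => ?_⟩
  rw [← Ideal.map_pow] at hx
  have h1 : (I ^ N).map (algebraMap (𝓞 F) (𝓞 L)) ≤ IdL τ ε hε.le := by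
    rw [Ideal.map_le_iff_le_comap]
    intro a ha
    have h2 := hN a (Ideal.pow_right_mono hI N ha)
    change ‖τ ((algebraMap (𝓞 F) (𝓞 L) a : 𝓞 L) : L)‖ ≤ ε
    have e : ((algebraMap (𝓞 F) (𝓞 L) a : 𝓞 L) : L) = algebraMap F L (a : F) := rfl
    rw [e, hτ]
    exact h2
  exact h1 hx

end

section

variable {p : ℕ} [Fact p.Prime]

/-- the root of unity is a `p`-th root of unity -/
theorem root_pow_p (hp2 : p ≠ 2) {M : ℕ} {ξ c : PadicAlgCl p}
    (g : PadicAlgCl p ≃ₐ[ℚ_[p]] PadicAlgCl p) (hc : IsPrimitiveRoot c p) (hgc : g c = c)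
    (hξ : ξ ^ p ^ M = 1) (h1 : ∏ i ∈ range p, (g ^ i) ξ = 1) : ξ ^ p = 1 := by
  have hp : p.Prime := Fact.out
  obtain ⟨t, ht, hord⟩ := (Nat.dvd_prime_pow hp).1 (orderOf_dvd_of_pow_eq_one hξ)
  have hprim : IsPrimitiveRoot ξ (p ^ t) := by
    rw [← hord]
    exact IsPrimitiveRoot.orderOf ξ
  by_cases ht2 : t ≤ 1
  · obtain ⟨m, hm⟩ := pow_dvd_pow p ht2
    rw [pow_one] at hm
    calc ξ ^ p = (ξ ^ p ^ t) ^ m := by rw [← pow_mul, ← hm]
      _ = 1 := by rw [hprim.pow_eq_one, one_pow]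
  exfalso
  have : NeZero (p ^ t) := ⟨pow_ne_zero _ hp.ne_zero⟩
  have hNp : NeZero p := ⟨hp.ne_zero⟩
  have hgξ : (g ξ) ^ p ^ t = 1 := by rw [← map_pow, hprim.pow_eq_one, map_one]
  obtain ⟨s, -, hs⟩ := hprim.eq_pow_of_pow_eq_one hgξ
  have hgi : ∀ i : ℕ, (g ^ i) ξ = ξ ^ s ^ i := by
    intro i
    induction i with
    | zero => simp
    | succ i ih =>
      rw [pow_succ', AlgEquiv.mul_apply, ih, map_pow, ← hs, ← pow_mul, pow_succ, mul_comm s]
  have hsum : p ^ t ∣ ∑ i ∈ range p, s ^ i := by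
    rw [← hprim.pow_eq_one_iff_dvd, ← Finset.prod_pow_eq_pow_sum]
    rw [← h1]
    exact Finset.prod_congr rfl fun i _ => (hgi i).symm
  -- the root of unity of order `p`
  have hfix : g (ξ ^ p ^ (t - 1)) = ξ ^ p ^ (t - 1) := by
    have h2 : (ξ ^ p ^ (t - 1)) ^ p = 1 := by
      rw [← pow_mul, ← pow_succ, Nat.sub_add_cancel (by omega), hprim.pow_eq_one]
    obtain ⟨k, -, hk⟩ := hc.eq_pow_of_pow_eq_one h2
    rw [← hk, map_pow, hgc]
  have hs1 : (p : ℤ) ∣ (s : ℤ) - 1 := by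
    have h2 : ξ ^ (p ^ (t - 1) * s) = ξ ^ p ^ (t - 1) := by
      rw [map_pow, ← hs, ← pow_mul, mul_comm s] at hfix
      exact hfix
    have h3 := (hprim.isOfFinOrder (pow_ne_zero _ hp.ne_zero)).pow_eq_pow_iff_modEq.1 h2
    rw [hord] at h3
    have h4 : (p : ℤ) ^ t ∣ (p : ℤ) ^ (t - 1) * ((s : ℤ) - 1) := by
      have h5 := (Nat.modEq_iff_dvd.1 h3.symm)
      push_cast at h5
      have e : (p : ℤ) ^ (t - 1) * ((s : ℤ) - 1) = (p : ℤ) ^ (t - 1) * s - (p : ℤ) ^ (t - 1) := by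
        ring
      rw [e]
      exact h5
    have h5 : (p : ℤ) ^ t = (p : ℤ) ^ (t - 1) * p := by
      rw [← pow_succ, Nat.sub_add_cancel (by omega)]
    rw [h5] at h4
    exact (mul_dvd_mul_iff_left (pow_ne_zero _ (by exact_mod_cast hp.ne_zero))).1 h4
  exact sum_pow_not_dvd hp2 hs1 ((pow_dvd_pow p (by omega)).trans hsum)

end

/-- JOB CR2LB. -/
theorem cr2lb : S_BAS → S_CPL → S_CR2LB := by
  intro hB _ p _ hp2 F L _ _ _ _ _ ζ d hζ hK hd σ hσ I hpI v hIv w M H y hy0 hy hnd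
  have hp : p.Prime := Fact.out
  have hNp : NeZero p := ⟨hp.ne_zero⟩
  obtain ⟨ρ, a, hS⟩ := exists_str hζ hK hd σ hσ
  have hd0 := d_ne hd
  obtain ⟨-, hB2, hB3, -, -, -, -⟩ := hB p F v
  obtain ⟨τ0, hτ0⟩ := exists_emb v (hIv hpI)
  obtain ⟨τ, hτ⟩ := ext_emb (L := L) τ0
  have hgal := hS.gal
  -- the automorphism of the algebraic closure
  have hτρ : τ ρ ∉ IntermediateField.adjoin ℚ_[p] (Set.range τ0) := by
    intro hmem
    apply hnd
    have hρ0 : τ ρ ≠ 0 := (map_ne_zero τ).2 hS.ne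
    have hpos : 0 < ‖τ ρ‖ := norm_pos_iff.2 hρ0
    obtain ⟨x, hx⟩ := mem_adjoin_close τ0 hmem
      (ε := ‖τ ρ‖ * ‖(p : PadicAlgCl p)‖ ^ 3) (mul_pos hpos (pow_pos norm_p_pos 3))
    have hp3 : ‖(p : PadicAlgCl p)‖ ^ 3 < 1 := pow_lt_one₀ (norm_nonneg _) norm_p_lt (by norm_num)
    have hx' : ‖τ0 x - τ ρ‖ < ‖τ ρ‖ * ‖(p : PadicAlgCl p)‖ ^ 3 := by
      rw [norm_sub_rev]; exact hx
    have hxn : ‖τ0 x‖ = ‖τ ρ‖ := norm_eq_of_sub_lt (hx'.trans (by nlinarith))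
    have hx0 : τ0 x ≠ 0 := by
      rw [← norm_pos_iff, hxn]; exact hpos
    apply lpw_of_close hB hτ0 (x := x⁻¹)
    have e : τ0 (d * x⁻¹ ^ p) = (τ ρ / τ0 x) ^ p := by
      rw [div_pow, ← map_pow τ, hS.pow, hτ, map_mul, map_pow, map_inv₀, inv_pow]
      rfl
    rw [e]
    have h1 : ‖τ ρ / τ0 x - 1‖ < ‖(p : PadicAlgCl p)‖ ^ 3 := by
      rw [div_sub_one hx0, norm_div, hxn, div_lt_iff₀ hpos, mul_comm]
      exact hx
    have h2 : ‖τ ρ / τ0 x‖ ≤ 1 := by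
      rw [norm_div, hxn, div_self hpos.ne']
    have h3 := prod_close (range p) (fun _ => τ ρ / τ0 x) (fun _ => 1)
      (pow_nonneg (norm_nonneg (p : PadicAlgCl p)) 3)
      (fun _ _ => h2) (fun _ _ => norm_one.le) (fun _ _ => h1.le)
    rw [Finset.prod_const, Finset.prod_const_one, Finset.card_range] at h3
    refine h3.trans_lt ?_
    exact pow_lt_pow_right_of_lt_one₀ norm_p_pos norm_p_lt (by norm_num)
  obtain ⟨g0, hg0, hg0ρ⟩ := exists_aut _ hτρ
  have hg0F : ∀ x : F, g0 (τ0 x) = τ0 x := fun x =>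
    hg0 _ (IntermediateField.subset_adjoin _ _ ⟨x, rfl⟩)
  have hζΩ : IsPrimitiveRoot (τ0 ζ) p := hζ.map_of_injective τ0.injective
  have hζ'Ω : IsPrimitiveRoot (τ0 (ζ ^ a)) p := hS.prim.map_of_injective τ0.injective
  have hρ0 : τ ρ ≠ 0 := (map_ne_zero τ).2 hS.ne
  obtain ⟨b, -, hb⟩ := hζΩ.eq_pow_of_pow_eq_one (ξ := g0 (τ ρ) / τ ρ) (by
    rw [div_pow, ← map_pow, ← map_pow, hS.pow, hτ, hg0F, div_self ((map_ne_zero τ0).2 hd0)])
  have hg0ρ' : g0 (τ ρ) = τ0 (ζ ^ b) * τ ρ := by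
    rw [map_pow, hb, div_mul_cancel₀ _ hρ0]
  have hbprim : IsPrimitiveRoot (τ0 (ζ ^ b)) p := by
    rw [map_pow]
    refine hζΩ.pow_of_coprime b ?_
    rw [Nat.coprime_comm, hp.coprime_iff_not_dvd]
    intro h
    apply hg0ρ
    rw [hg0ρ', map_pow, (hζΩ.pow_eq_one_iff_dvd b).2 h, one_mul]
  obtain ⟨k, -, hk⟩ := hbprim.eq_pow_of_pow_eq_one hζ'Ω.pow_eq_one
  have hg0k : ∀ j : ℕ, (g0 ^ j) (τ ρ) = (τ0 (ζ ^ b)) ^ j * τ ρ := by
    intro j
    induction j with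
    | zero => simp
    | succ j ih =>
      rw [pow_succ', AlgEquiv.mul_apply, ih, map_mul, map_pow, hg0F, hg0ρ', ← mul_assoc,
        ← pow_succ]
  obtain ⟨g, hg⟩ : ∃ g : PadicAlgCl p ≃ₐ[ℚ_[p]] PadicAlgCl p, g = g0 ^ k := ⟨_, rfl⟩
  have hgF : ∀ x : F, g (τ0 x) = τ0 x := by
    intro x
    rw [hg]
    clear hk hg
    induction k with
    | zero => simp
    | succ k ih => rw [pow_succ', AlgEquiv.mul_apply, ih, hg0F]
  have hgρ : g (τ ρ) = τ (σ ρ) := by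
    rw [hg, hg0k, hk, hS.act, map_mul, hτ]
  have hgτ : ∀ x : L, g (τ x) = τ (σ x) := by
    have h1 : (g : PadicAlgCl p →+* PadicAlgCl p).comp τ = τ.comp (σ : L →+* L) := by
      refine hom_ext hK hd hS.pow _ _ (fun x => ?_) hgρ
      change g (τ (algebraMap F L x)) = τ (σ (algebraMap F L x))
      rw [hτ, hgF, σ.commutes, hτ]
    exact fun x => DFunLike.congr_fun h1 x
  have hgi : ∀ (i : ℕ) (x : L), (g ^ i) (τ x) = τ ((σ ^ i) x) := by
    intro i x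
    induction i with
    | zero => rfl
    | succ i ih => rw [pow_succ', AlgEquiv.mul_apply, ih, hgτ, pow_succ', AlgEquiv.mul_apply]
  -- the precision
  obtain ⟨ε, hε⟩ : ∃ ε : ℝ, ε = ‖(p : PadicAlgCl p)‖ ^ (M + 4) := ⟨_, rfl⟩
  have hp0 := norm_p_pos (p := p)
  have hp1 := norm_p_lt (p := p)
  have hε0 : 0 < ε := by rw [hε]; exact pow_pos hp0 _
  have hn0 : 0 < p ^ M := pow_pos hp.pos _
  obtain ⟨N, hN⟩ := small_of_mem hτ (hIv.trans hτ0.le) (pow_pos hε0 (p ^ M))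
  obtain ⟨η, hη1, hη2⟩ := H N
  set W : L := ((w : 𝓞 L) : L) with hW
  set E : L := ((η : 𝓞 L) : L) with hE
  have hη3 := hN _ hη2
  have e1 : ((((w * η ^ p) ^ p ^ M : (𝓞 L)ˣ) : 𝓞 L) - 1 : 𝓞 L) = ((((w * η ^ p) ^ p ^ M : (𝓞 L)ˣ) : 𝓞 L) - 1 : 𝓞 L) := rfl
  have e2 : (((((w * η ^ p) ^ p ^ M : (𝓞 L)ˣ) : 𝓞 L) - 1 : 𝓞 L) : L) = (W * E ^ p) ^ p ^ M - 1 := by
    rw [hW, hE]
    push_cast
    rfl
  rw [e2, map_sub, map_one, map_pow] at hη3
  obtain ⟨ξ, hξ, hξc⟩ := close_root hn0 _ hε0.le hη3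
  have hξn : ‖ξ‖ = 1 := by
    have h1 : ‖ξ‖ ^ p ^ M = 1 := by rw [← norm_pow, hξ, norm_one]
    exact (pow_eq_one_iff_of_nonneg (norm_nonneg _) hn0.ne').1 h1
  have hε1 : ε < 1 := by rw [hε]; exact pow_lt_one₀ (norm_nonneg _) hp1 (by omega)
  have hun : ‖τ (W * E ^ p)‖ = 1 := by
    rw [← hξn]
    exact norm_eq_of_sub_lt (by rw [hξn]; exact hξc.trans_lt hε1)
  -- norms
  have hNw : Algebra.norm F W = 1 := by
    have h1 : Algebra.norm F (σ y) = Algebra.norm F y := Algebra.norm_eq_of_algEquiv σ y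
    rw [← hy, map_mul] at h1
    have h2 : Algebra.norm F y ≠ 0 := Algebra.norm_ne_zero_iff.2 hy0
    exact mul_right_cancel₀ h2 (by rw [h1, one_mul])
  have hprod : ∏ i ∈ range p, (g ^ i) ξ = 1 := by
    apply root_one (n := p ^ M)
    · rw [← Finset.prod_pow]
      refine Finset.prod_eq_one fun i _ => ?_
      rw [← map_pow, hξ, map_one]
    · have h1 : ∏ i ∈ range p, (g ^ i) (τ (W * E ^ p)) = 1 := by
        rw [Finset.prod_congr rfl fun i _ => hgi i _, ← map_prod, ← hS.norm, map_mul, map_pow, hNw,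
          hη1, one_pow, mul_one, map_one, map_one]
      have h2 := prod_close (range p) (fun i => (g ^ i) ξ) (fun i => (g ^ i) (τ (W * E ^ p)))
        hε0.le (fun i _ => by rw [norm_aut, hξn]) (fun i _ => by rw [norm_aut, hun])
        (fun i _ => by rw [← map_sub, norm_aut, norm_sub_rev]; exact hξc)
      rw [h1] at h2
      refine h2.trans_lt ?_
      rw [hε, Nat.cast_pow, norm_pow]
      exact pow_lt_pow_right_of_lt_one₀ hp0 hp1 (by omega)
  have hξp : ξ ^ p = 1 := root_pow_p hp2 g hζΩ (hgF ζ) hξ hprod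
  obtain ⟨i, -, hi⟩ := hζ'Ω.eq_pow_of_pow_eq_one hξp
  -- Hilbert 90
  have hfd : FiniteDimensional F L := Module.Finite.of_restrictScalars_finite ℚ F L
  have hcyc : IsCyclic (L ≃ₐ[F] L) := ⟨σ, hS.gen⟩
  obtain ⟨c, hc⟩ := groupCohomology.exists_div_of_norm_eq_one hS.gen (x := E⁻¹) (by
    rw [Algebra.norm_inv, hη1, inv_one])
  have hc0 : (c : L) ≠ 0 := c.ne_zero
  have hσc0 : σ (c : L) ≠ 0 := (map_ne_zero σ).2 hc0
  have hEc : E * (c : L) = σ (c : L) := by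
    have hE0 : E ≠ 0 := by
      intro h0
      rw [h0, inv_zero, div_eq_zero_iff] at hc
      rcases hc with h | h
      · exact hc0 h
      · exact hσc0 h
    rw [div_eq_iff hσc0] at hc
    conv_lhs => rw [hc]
    rw [← mul_assoc, mul_inv_cancel₀ hE0, one_mul]
  -- the element
  obtain ⟨Y, hY⟩ : ∃ Y : L, Y = y * (c : L) ^ p * (ρ⁻¹) ^ i := ⟨_, rfl⟩
  have hY0 : Y ≠ 0 := by
    rw [hY]
    exact mul_ne_zero (mul_ne_zero hy0 (pow_ne_zero _ hc0)) (pow_ne_zero _ (inv_ne_zero hS.ne))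
  have hz0 : algebraMap F L (ζ ^ a) ≠ 0 := by
    rw [Ne, map_eq_zero]
    exact hS.prim.ne_zero hp.ne_zero
  have hσY : σ Y = (W * E ^ p * ((algebraMap F L (ζ ^ a))⁻¹) ^ i) * Y := by
    rw [hY, map_mul, map_mul, map_pow, map_pow, map_inv₀, hS.act, ← hy, ← hEc, mul_inv, mul_pow,
      mul_pow]
    ring
  have hτ1 : ‖τ (W * E ^ p * ((algebraMap F L (ζ ^ a))⁻¹) ^ i) - 1‖ ≤ ε := by
    have h1 : τ (((algebraMap F L (ζ ^ a))⁻¹) ^ i) = ξ⁻¹ := by
      rw [map_pow, map_inv₀, hτ, inv_pow, hi]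
    have hξ0 : ξ ≠ 0 := by
      rw [← norm_pos_iff, hξn]; exact one_pos
    rw [map_mul, h1]
    have e : τ (W * E ^ p) * ξ⁻¹ - 1 = (τ (W * E ^ p) - ξ) * ξ⁻¹ := by
      field_simp
    rw [e, norm_mul, norm_inv, hξn, inv_one, mul_one]
    exact hξc
  obtain ⟨R, hR⟩ : ∃ R : L, R = W * E ^ p * ((algebraMap F L (ζ ^ a))⁻¹) ^ i := ⟨_, rfl⟩
  rw [← hR] at hσY hτ1
  have hA0 : τ Y ≠ 0 := (map_ne_zero τ).2 hY0
  have hrat : ∀ j : ℕ, ‖τ ((σ ^ j) Y) / τ Y - 1‖ ≤ ε := by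
    intro j
    induction j with
    | zero =>
      rw [pow_zero, AlgEquiv.one_apply, div_self hA0, sub_self, norm_zero]
      exact hε0.le
    | succ j ih =>
      have h1 : (σ ^ (j + 1)) Y = (σ ^ j) R * (σ ^ j) Y := by
        rw [pow_succ, AlgEquiv.mul_apply, hσY, map_mul]
      have h2 : ‖τ ((σ ^ j) R) - 1‖ ≤ ε := by
        rw [← hgi]
        have e : (g ^ j) (τ R) - 1 = (g ^ j) (τ R - 1) := by rw [map_sub, map_one]
        rw [e, norm_aut]
        exact hτ1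
      have h3 : τ ((σ ^ (j + 1)) Y) / τ Y - 1 = τ ((σ ^ j) R) * (τ ((σ ^ j) Y) / τ Y - 1) +
          (τ ((σ ^ j) R) - 1) := by
        rw [h1, map_mul]
        field_simp
        ring
      have h4 : ‖τ ((σ ^ j) R)‖ = 1 := by
        have h5 : ‖τ ((σ ^ j) R)‖ = ‖(1 : PadicAlgCl p)‖ := norm_eq_of_sub_lt (by
          rw [norm_one]; exact h2.trans_lt hε1)
        rw [h5, norm_one]
      rw [h3]
      refine (IsUltrametricDist.norm_add_le_max _ _).trans (max_le ?_ h2)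
      rw [norm_mul, h4, one_mul]
      exact ih
  -- the trace
  obtain ⟨s, hs⟩ : ∃ s : PadicAlgCl p, s = ∑ j ∈ range p, τ ((σ ^ j) Y) / τ Y := ⟨_, rfl⟩
  have hεp : ε < ‖(p : PadicAlgCl p)‖ := by
    rw [hε]
    have := pow_lt_pow_right_of_lt_one₀ hp0 hp1 (show 1 < M + 4 by omega)
    rwa [pow_one] at this
  have hs1 : ‖s - p‖ ≤ ε := by
    have h1 : s - p = ∑ j ∈ range p, (τ ((σ ^ j) Y) / τ Y - 1) := by
      rw [Finset.sum_sub_distrib, ← hs, Finset.sum_const, Finset.card_range, nsmul_eq_mul, mul_one]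
    rw [h1]
    exact IsUltrametricDist.norm_sum_le_of_forall_le_of_nonneg hε0.le fun j _ => hrat j
  have hsn : ‖s‖ = ‖(p : PadicAlgCl p)‖ := norm_eq_of_sub_lt (hs1.trans_lt hεp)
  have hs0 : s ≠ 0 := by
    rw [← norm_pos_iff, hsn]; exact hp0
  have htr : τ0 (Algebra.trace F L Y) = τ Y * s := by
    rw [← hτ, hS.trace, map_sum, hs, Finset.mul_sum]
    exact Finset.sum_congr rfl fun j _ => by rw [mul_div_cancel₀ _ hA0]
  have hnm : τ0 (Algebra.norm F Y) = τ Y ^ p * ∏ j ∈ range p, (τ ((σ ^ j) Y) / τ Y) := by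
    rw [← hτ, hS.norm, map_prod, Finset.prod_div_distrib, Finset.prod_const, Finset.card_range]
    field_simp
  have hLY : Lpw p v (Algebra.norm F Y) := by
    apply lpw_of_close hB hτ0 (x := (p : F) / Algebra.trace F L Y)
    have e : τ0 (Algebra.norm F Y * ((p : F) / Algebra.trace F L Y) ^ p) =
        ∏ j ∈ range p, (τ ((σ ^ j) Y) / τ Y * ((p : PadicAlgCl p) / s)) := by
      rw [map_mul, map_pow, map_div₀, map_natCast, htr, hnm, Finset.prod_mul_distrib,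
        Finset.prod_const, Finset.card_range]
      generalize ∏ j ∈ range p, (τ ((σ ^ j) Y) / τ Y) = Q
      rw [div_pow, div_pow, mul_pow]
      field_simp
    rw [e]
    have h1 : ‖(p : PadicAlgCl p) / s - 1‖ ≤ ε / ‖(p : PadicAlgCl p)‖ := by
      rw [div_sub_one hs0, norm_div, hsn, norm_sub_rev]
      exact div_le_div_of_nonneg_right hs1 hp0.le
    have hεε : ε / ‖(p : PadicAlgCl p)‖ < ‖(p : PadicAlgCl p)‖ ^ 2 := by
      rw [div_lt_iff₀ hp0, hε, ← pow_succ]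
      exact pow_lt_pow_right_of_lt_one₀ hp0 hp1 (by omega)
    have hε' : ε ≤ ε / ‖(p : PadicAlgCl p)‖ := by
      rw [le_div_iff₀ hp0]
      exact mul_le_of_le_one_right hε0.le hp1.le
    have h2 : ‖(p : PadicAlgCl p) / s‖ = 1 := by rw [norm_div, hsn, div_self hp0.ne']
    have h3 : ∀ j, ‖τ ((σ ^ j) Y) / τ Y‖ = 1 := by
      intro j
      have h5 : ‖τ ((σ ^ j) Y) / τ Y‖ = ‖(1 : PadicAlgCl p)‖ := norm_eq_of_sub_lt (by
        rw [norm_one]; exact (hrat j).trans_lt hε1)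
      rw [h5, norm_one]
    have h4 := prod_close (range p) (fun j => τ ((σ ^ j) Y) / τ Y * ((p : PadicAlgCl p) / s))
      (fun _ => 1) (ε := ε / ‖(p : PadicAlgCl p)‖) (hε0.le.trans hε')
      (fun j _ => by rw [norm_mul, h2, h3, one_mul]) (fun _ _ => norm_one.le)
      (fun j _ => by
        have e3 : τ ((σ ^ j) Y) / τ Y * ((p : PadicAlgCl p) / s) - 1 =
            τ ((σ ^ j) Y) / τ Y * ((p : PadicAlgCl p) / s - 1) + (τ ((σ ^ j) Y) / τ Y - 1) := by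
          ring
        rw [e3]
        refine (IsUltrametricDist.norm_add_le_max _ _).trans (max_le ?_ ((hrat j).trans hε'))
        rw [norm_mul, h3, one_mul]
        exact h1)
    rw [Finset.prod_const_one] at h4
    exact h4.trans_lt hεε
  -- the end
  refine ⟨i * (p - 1), ?_⟩
  have hNc : Algebra.norm F (c : L) ≠ 0 := Algebra.norm_ne_zero_iff.2 hc0
  have e3 : Algebra.norm F y * d ^ (i * (p - 1)) =
      Algebra.norm F Y * ((Algebra.norm F (c : L))⁻¹ * d ^ i) ^ p := by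
    rw [hY, map_mul, map_mul, map_pow, map_pow, Algebra.norm_inv, hS.norm_root hp2, mul_pow, inv_pow, inv_pow]
    have e4 : (d ^ i) ^ p = d ^ i * d ^ (i * (p - 1)) := by
      rw [← pow_mul, ← pow_add]
      congr 1
      have : i * p = i * (p - 1 + 1) := by rw [Nat.sub_add_cancel hp.one_le]
      rw [this]
      ring
    rw [e4]
    have hdi : d ^ i ≠ 0 := pow_ne_zero _ hd0
    field_simp
  rw [e3]
  exact hB2 _ _ hLY (hB3 _ (mul_ne_zero (inv_ne_zero hNc) (pow_ne_zero _ hd0)))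

end Pool.Agent.Q150.LK
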