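import Pool.Agent.Q150.LK.HS1A0
import Pool.Agent.Q111.EX.Fin
import Pool.Agent.Q38.EX.NrmB

/-!
# Project LK (helper7), job HS1A: Artin's law of reciprocity for `F(c^(1/p))`
-/

set_option autoImplicit false

namespace Pool.Agent.Q150.LK

open Pool.Agent.Q7.LK

/-- JOB HS1A -/
theorem hs1a : S_BAS → S_HS1A :=
  hs1a_of Pool.Agent.Q92.AR.recip Pool.Agent.Q38.EX.nrm Pool.Agent.Q111.EX.good

end Pool.Agent.Q150.LK
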