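import Pool.Agent.Q150.LK.Kum
import Pool.Agent.Q16.EX.Kum
import Pool.Agent.Q299.EX.Cnt
import Pool.Agent.Q7.LK.Stm

/-!
# Project LK (helper7), job HS1A: Artin's law of reciprocity for `F(c^(1/p))`, first part
-/

set_option autoImplicit false
set_option linter.unusedSectionVars false

namespace Pool.Agent.Q150.LK

open NumberField IsDedekindDomain Finset Polynomial
open Pool.Agent.Q7.LK Pool.Agent.Q92.AR Pool.Agent.Q20.EX

section

variable {p : ℕ} [Fact p.Prime] {F : Type} [Field F] [NumberField F] {ζ c : F}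

/-- the Kummer extension -/
theorem exists_kumfield (hζ : IsPrimitiveRoot ζ p) (hc : ¬ IsPow p c) :
    ∃ (M : Type) (_ : Field M) (_ : NumberField M) (_ : Algebra F M), Kum p F M c ∧ IsGalois F M := by
  have hp : p.Prime := Fact.out
  have hirr : Irreducible (X ^ p - C c : F[X]) := irr hc
  have hfact : Fact (Irreducible (X ^ p - C c : F[X])) := ⟨hirr⟩
  have hne : (X ^ p - C c : F[X]) ≠ 0 := hirr.ne_zero
  have hfin : Module.Finite F (AdjoinRoot (X ^ p - C c : F[X])) := (AdjoinRoot.powerBasis hne).finite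
  have hnf : NumberField (AdjoinRoot (X ^ p - C c : F[X])) :=
    NumberField.of_module_finite F (AdjoinRoot (X ^ p - C c : F[X]))
  have hprim : (primitiveRoots p F).Nonempty := ⟨ζ, (mem_primitiveRoots hp.pos).2 hζ⟩
  have hsp : IsSplittingField F (AdjoinRoot (X ^ p - C c : F[X])) (X ^ p - C c) :=
    isSplittingField_AdjoinRoot_X_pow_sub_C hprim hirr
  refine ⟨AdjoinRoot (X ^ p - C c : F[X]), inferInstance, hnf, inferInstance, ⟨?_, ?_⟩, ?_⟩
  · rw [(AdjoinRoot.powerBasis hne).finrank, AdjoinRoot.powerBasis_dim, natDegree_X_pow_sub_C]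
  · refine ⟨AdjoinRoot.root _, ?_⟩
    have h := AdjoinRoot.eval₂_root (X ^ p - C c : F[X])
    rw [eval₂_sub, eval₂_pow, eval₂_X, eval₂_C, sub_eq_zero] at h
    exact h
  · exact isGalois_of_isSplittingField_X_pow_sub_C hprim hirr _

/-- `F` has no real embedding -/
theorem no_real (hp2 : p ≠ 2) (hζ : IsPrimitiveRoot ζ p) (x : F) : Pos x := by
  intro φ
  exfalso
  have hp : p.Prime := Fact.out
  have h1 : (φ ζ) ^ p = 1 := by rw [← map_pow, hζ.pow_eq_one, map_one]
  have hodd : Odd p := hp.odd_of_ne_two hp2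
  have h2 : φ ζ = 1 := by
    have h3 : (φ ζ) ^ p = 1 ^ p := by rw [h1, one_pow]
    exact hodd.strictMono_pow.injective h3
  have h3 : ζ = 1 := φ.injective (by rw [h2, map_one])
  exact hζ.ne_one hp.one_lt h3

/-- the order as a coefficient of the divisor -/
theorem vl_eq (v : HeightOneSpectrum (𝓞 F)) (x : Fˣ) : vl p v (x : F) = ((prin x v : ℤ) : ZMod p) := by
  unfold vl
  rw [Pool.Agent.Q125.AR.valuation_eq_exp, WithZero.log_exp]
  push_cast
  ring

theorem val_one_of_close {v : HeightOneSpectrum (𝓞 F)} {x : F} (h : v.valuation F (x - 1) < 1) :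
    v.valuation F x = 1 := by
  have h2 : v.valuation F (x - 1) < v.valuation F (1 : F) := by rwa [map_one]
  have h3 := Valuation.map_add_eq_of_lt_right (v.valuation F) h2
  rw [sub_add_cancel, map_one] at h3
  exact h3

theorem exp_le_one (k : ℕ) : (WithZero.exp (-(k : ℤ)) : WithZero (Multiplicative ℤ)) ≤ 1 := by
  rw [← WithZero.exp_zero, WithZero.exp_le_exp]
  omega

theorem exp_anti {k l : ℕ} (h : k ≤ l) :
    (WithZero.exp (-(l : ℤ)) : WithZero (Multiplicative ℤ)) ≤ WithZero.exp (-(k : ℤ)) := by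
  rw [WithZero.exp_le_exp]
  omega

/-! ### Removing primes from the modulus -/

/-- the elements near `1` at the primes of `S` are killed by `χ` -/
def Gd (χ : Dv F →+ Additive ℂˣ) (S : Set (HeightOneSpectrum (𝓞 F))) : Prop :=
  S.Finite ∧ ∃ k : ℕ, ∀ x : Fˣ, (∀ v ∈ S, v.valuation F ((x : F) - 1) < WithZero.exp (-(k : ℤ))) →
    χ (prin x) = 0

theorem Gd.inter {χ : Dv F →+ Additive ℂˣ} {S T : Set (HeightOneSpectrum (𝓞 F))} (hS : Gd χ S)
    (hT : Gd χ T) : Gd χ (S ∩ T) := by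
  classical
  obtain ⟨hSf, k1, h1⟩ := hS
  obtain ⟨hTf, k2, h2⟩ := hT
  refine ⟨hSf.inter_of_left _, max k1 k2, fun x hx => ?_⟩
  obtain ⟨z, hz⟩ := Pool.Agent.Q299.EX.approx (hSf.union hTf)
    (fun v => if v ∈ S then 1 else x) (fun _ => max k1 k2 + 1) (fun _ => by omega)
  have hlt : (WithZero.exp (-((max k1 k2 + 1 : ℕ) : ℤ)) : WithZero (Multiplicative ℤ)) <
      WithZero.exp (-((max k1 k2 : ℕ) : ℤ)) := by
    rw [WithZero.exp_lt_exp]
    push_cast
    omega
  have hz1 : ∀ v ∈ S, v.valuation F ((z : F) - 1) < WithZero.exp (-((max k1 k2 : ℕ) : ℤ)) := by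
    intro v hv
    have h := hz v (Or.inl hv)
    rw [if_pos hv, Units.val_one, div_one] at h
    exact h.trans_lt hlt
  have hz2 : ∀ v ∈ T, v.valuation F (((x / z : Fˣ) : F) - 1) <
      WithZero.exp (-((max k1 k2 : ℕ) : ℤ)) := by
    intro v hv
    rw [Units.val_div_eq_div_val]
    have hz0 : (z : F) ≠ 0 := z.ne_zero
    have hx0 : (x : F) ≠ 0 := x.ne_zero
    by_cases hvS : v ∈ S
    · have hzv := hz1 v hvS
      have hzu : v.valuation F (z : F) = 1 := val_one_of_close (hzv.trans_le (exp_le_one _))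
      have e : (x : F) / z - 1 = (((x : F) - 1) - ((z : F) - 1)) / z := by
        field_simp
        ring
      rw [e, map_div₀, hzu, div_one]
      exact (Valuation.map_sub _ _ _).trans_lt (max_lt (hx v ⟨hvS, hv⟩) hzv)
    · have h := hz v (Or.inr hv)
      rw [if_neg hvS] at h
      have h' := h.trans_lt hlt
      have hu : v.valuation F ((z : F) / x) = 1 := val_one_of_close (h'.trans_le (exp_le_one _))
      have e : (x : F) / z - 1 = -(((z : F) / x - 1) / ((z : F) / x)) := by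
        field_simp
        ring
      rw [e, Valuation.map_neg, map_div₀ (v.valuation F) ((z : F) / x - 1), hu, div_one]
      exact h'
  have e : prin x = prin z + prin (x / z) := by
    rw [← prin_mul, mul_div_cancel]
  rw [e, map_add, h1 z fun v hv => (hz1 v hv).trans_le (exp_anti (le_max_left _ _)),
    h2 (x / z) fun v hv => (hz2 v hv).trans_le (exp_anti (le_max_right _ _)), add_zero]

/-- precision -/
theorem exists_prec {S : Set (HeightOneSpectrum (𝓞 F))} (hS : S.Finite) {N : ℕ} (hN : N ≠ 0) :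
    ∃ k : ℕ, ∀ v ∈ S, (WithZero.exp (-(k : ℤ)) : WithZero (Multiplicative ℤ)) ≤
      v.valuation F (N : F) := by
  have hN0 : (N : F) ≠ 0 := Nat.cast_ne_zero.2 hN
  induction S, hS using Set.Finite.induction_on with
  | empty => exact ⟨0, fun v hv => absurd hv (Set.notMem_empty v)⟩
  | @insert w T _ _ ih =>
    obtain ⟨k, hk⟩ := ih
    have h1 := Pool.Agent.Q125.AR.valuation_eq_exp (Units.mk0 (N : F) hN0) w
    rw [Units.val_mk0] at h1
    refine ⟨max k (prin (Units.mk0 (N : F) hN0) w).toNat, fun v hv => ?_⟩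
    rcases Set.mem_insert_iff.1 hv with rfl | hv
    · rw [h1, WithZero.exp_le_exp]
      omega
    · exact (exp_anti (le_max_left _ _)).trans (hk v hv)

/-- from a congruence condition outside `A` -/
theorem Gd.of_cong {χ : Dv F →+ Additive ℂˣ} {A : Set (HeightOneSpectrum (𝓞 F))} {N : ℕ} (hN : N ≠ 0)
    (h : ∀ x : Fˣ, CongAt A N (x : F) → χ (prin x) = 0) :
    Gd χ ({v | (N : 𝓞 F) ∈ v.asIdeal} ∩ A) := by
  have hf : ({v : HeightOneSpectrum (𝓞 F) | (N : 𝓞 F) ∈ v.asIdeal} ∩ A).Finite :=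
    (Pool.Agent.Q125.AR.finite_dvd hN).inter_of_left _
  obtain ⟨k, hk⟩ := exists_prec hf hN
  refine ⟨hf, k, fun x hx => h x fun v hvA hvN => ?_⟩
  exact (hx v ⟨hvN, hvA⟩).le.trans (hk v ⟨hvN, hvA⟩)

/-- removing all primes outside `R` -/
theorem Gd.remove {χ : Dv F →+ Additive ℂˣ} {S R : Set (HeightOneSpectrum (𝓞 F))} (hS : Gd χ S)
    (h : ∀ v ∉ R, ∃ T, Gd χ T ∧ v ∉ T) : ∃ T, Gd χ T ∧ T ⊆ R := by
  classical
  have key : ∀ U : Finset (HeightOneSpectrum (𝓞 F)), (∀ v ∈ U, v ∉ R) →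
      ∃ T, Gd χ T ∧ T ⊆ S ∧ ∀ v ∈ U, v ∉ T := by
    intro U
    induction U using Finset.induction_on with
    | empty => exact fun _ => ⟨S, hS, subset_rfl, fun v hv => absurd hv (Finset.notMem_empty v)⟩
    | insert w U _ ih =>
      intro hU
      obtain ⟨T, hT, hTS, hTU⟩ := ih fun v hv => hU v (Finset.mem_insert_of_mem hv)
      obtain ⟨T', hT', hwT'⟩ := h w (hU w (Finset.mem_insert_self _ _))
      refine ⟨T ∩ T', hT.inter hT', Set.inter_subset_left.trans hTS, fun v hv hv' => ?_⟩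
      rcases Finset.mem_insert.1 hv with rfl | hv
      · exact hwT' hv'.2
      · exact hTU v hv hv'.1
  have hfin : (S \ R).Finite := hS.1.subset Set.sdiff_subset
  obtain ⟨T, hT, hTS, hTU⟩ := key hfin.toFinset fun v hv => (hfin.mem_toFinset.1 hv).2
  refine ⟨T, hT, fun v hv => ?_⟩
  by_contra hvR
  exact hTU v (hfin.mem_toFinset.2 ⟨hTS hv, hvR⟩) hv

end

/-! ### Frobenius and inertia -/

section

variable {p : ℕ} [Fact p.Prime] {F M : Type} [Field F] [NumberField F] [Field M] [NumberField M]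
  [Algebra F M] {ζ c : F}

/-- a Frobenius element is the `N v`-th power on the residues of the local integers -/
theorem frob_val {w : HeightOneSpectrum (𝓞 M)} {g : M ≃ₐ[F] M} {N : ℕ}
    (hg : ∀ x : 𝓞 M, w.valuation M (g (x : M) - (x : M) ^ N) < 1) {x : M}
    (hx : w.valuation M x ≤ 1) : w.valuation M (g x - x ^ N) < 1 := by
  obtain ⟨a, d, had⟩ := HeightOneSpectrum.exists_primeCompl_mul_eq_of_integer w x hx
  have hle : ∀ y : 𝓞 M, w.valuation M (algebraMap (𝓞 M) M y) ≤ 1 := fun y => w.valuation_le_one y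
  have hd1 : w.valuation M (algebraMap (𝓞 M) M d) = 1 := by
    rw [w.valuation_of_algebraMap, w.intValuation_eq_one_iff_mem_primeCompl]
    exact d.2
  have hga := hg a
  have hgd := hg d
  have hd2 : w.valuation M (g (algebraMap (𝓞 M) M d)) = 1 := by
    have h2 : g (algebraMap (𝓞 M) M d) = (g (algebraMap (𝓞 M) M d) - (algebraMap (𝓞 M) M d) ^ N) +
      (algebraMap (𝓞 M) M d) ^ N := by ring
    have h3 : w.valuation M ((algebraMap (𝓞 M) M d) ^ N) = 1 := by rw [map_pow, hd1, one_pow]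
    rw [h2, Valuation.map_add_eq_of_lt_right, h3]
    rw [h3]
    exact hgd
  have h3 : (g x - x ^ N) * (g (algebraMap (𝓞 M) M d) * (algebraMap (𝓞 M) M d) ^ N) =
      (g (algebraMap (𝓞 M) M a) - (algebraMap (𝓞 M) M a) ^ N) * (algebraMap (𝓞 M) M d) ^ N -
        (algebraMap (𝓞 M) M a) ^ N * (g (algebraMap (𝓞 M) M d) - (algebraMap (𝓞 M) M d) ^ N) := by
    rw [← had, map_mul]
    ring
  have h4 : w.valuation M (g x - x ^ N) = w.valuation M ((g x - x ^ N) *
      (g (algebraMap (𝓞 M) M d) * (algebraMap (𝓞 M) M d) ^ N)) := by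
    rw [map_mul, map_mul, map_pow, hd1, hd2, one_pow, mul_one, mul_one]
  rw [h4, h3]
  refine (Valuation.map_sub _ _ _).trans_lt (max_lt ?_ ?_)
  · rw [map_mul, map_pow, hd1, one_pow, mul_one]
    exact hga
  · rw [map_mul, map_pow]
    exact (mul_le_of_le_one_left' (pow_le_one' (hle a) N)).trans_lt hgd

/-- the prime `p` is a unit above `v` -/
theorem val_p {v : HeightOneSpectrum (𝓞 F)} (hv : ¬ Dp p v) {w : HeightOneSpectrum (𝓞 M)}
    (hw : w.under (𝓞 F) = v) : w.valuation M (p : M) = 1 := by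
  have h1 : (p : 𝓞 M) ∉ w.asIdeal := by
    intro h2
    apply hv
    subst hw
    change algebraMap (𝓞 F) (𝓞 M) (p : 𝓞 F) ∈ w.asIdeal
    rw [map_natCast]
    exact h2
  have h2 := (w.valuation_eq_one_iff_notMem (K := M) (r := (p : 𝓞 M))).2 h1
  rwa [map_natCast] at h2

/-- the valuation of elements of `F` -/
theorem val_lt {v : HeightOneSpectrum (𝓞 F)} {w : HeightOneSpectrum (𝓞 M)}
    (hw : w.under (𝓞 F) = v) {x : F} :
    (v.valuation F x = 1 → w.valuation M (algebraMap F M x) = 1) ∧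
    (v.valuation F x < 1 → w.valuation M (algebraMap F M x) < 1) := by
  subst hw
  have hover : w.asIdeal.LiesOver (w.under (𝓞 F)).asIdeal := ⟨rfl⟩
  have h := HeightOneSpectrum.valuation_liesOver (K := F) M (w.under (𝓞 F)) w x
  have he := Ideal.IsDedekindDomain.ramificationIdx'_ne_zero_of_liesOver w.asIdeal
    (w.under (𝓞 F)).ne_bot
  refine ⟨fun h1 => ?_, fun h1 => ?_⟩
  · rw [← h, h1, one_pow]
  · rw [← h]
    exact pow_lt_one₀ zero_le h1 he

theorem val_root {w : HeightOneSpectrum (𝓞 M)} {t : M} (h : w.valuation M (t ^ p) = 1) :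
    w.valuation M t = 1 := by
  rw [map_pow] at h
  exact (pow_eq_one_iff.1 h).resolve_right (Fact.out : p.Prime).ne_zero

/-- an inertia element fixes `ρ` -/
theorem inertia_fix {v : HeightOneSpectrum (𝓞 F)} (hv : ¬ Dp p v) {w : HeightOneSpectrum (𝓞 M)}
    (hw : w.under (𝓞 F) = v) {b : F} (hb : v.valuation F b = 1) {ρ : M}
    (hρ : ρ ^ p = algebraMap F M b) {g : M ≃ₐ[F] M}
    (hg : ∀ x : 𝓞 M, g • x - x ∈ w.asIdeal) : g ρ = ρ := by
  have hρ1 : w.valuation M ρ = 1 := val_root (p := p) (by rw [hρ]; exact (val_lt hw).1 hb)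
  have hρ0 : ρ ≠ 0 := by
    rintro rfl
    rw [map_zero] at hρ1
    exact zero_ne_one hρ1
  have hb0 : algebraMap F M b ≠ 0 := by
    rw [← hρ]
    exact pow_ne_zero _ hρ0
  have h1 : (g ρ / ρ) ^ p = 1 := by rw [div_pow, ← map_pow, hρ, g.commutes, div_self hb0]
  have h2 : w.valuation M (g ρ / ρ - 1) < 1 := by
    have e : g ρ / ρ - 1 = (g ρ - ρ) / ρ := by rw [sub_div, div_self hρ0]
    rw [e, map_div₀, hρ1, div_one]
    exact Pool.Agent.Q16.EX.inertia_val hg hρ1.le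
  have h3 := Pool.Agent.Q16.EX.root_eq_one (val_p hv hw) h1 h2
  rwa [div_eq_one_iff_eq hρ0] at h3

/-- the action of a Frobenius element on `ρ` -/
theorem frob_act (hζ : IsPrimitiveRoot ζ p) {v : HeightOneSpectrum (𝓞 F)} (hv : ¬ Dp p v)
    {w : HeightOneSpectrum (𝓞 M)}
    (hw : w.under (𝓞 F) = v) {b : F} (hb : v.valuation F b = 1) {ρ : M}
    (hρ : ρ ^ p = algebraMap F M b) {g : M ≃ₐ[F] M} {N : ℕ} (hN1 : 1 ≤ N) (hN : p ∣ N - 1)
    (hg : ∀ x : 𝓞 M, w.valuation M (g (x : M) - (x : M) ^ N) < 1) {s : ℕ}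
    (hs : v.valuation F (b ^ ((N - 1) / p) - ζ ^ s) < 1) : g ρ / ρ = algebraMap F M (ζ ^ s) := by
  have hρ1 : w.valuation M ρ = 1 := val_root (p := p) (by rw [hρ]; exact (val_lt hw).1 hb)
  have hρ0 : ρ ≠ 0 := by
    rintro rfl
    rw [map_zero] at hρ1
    exact zero_ne_one hρ1
  have hb0 : algebraMap F M b ≠ 0 := by
    rw [← hρ]
    exact pow_ne_zero _ hρ0
  have h1 : (g ρ / ρ) ^ p = 1 := by rw [div_pow, ← map_pow, hρ, g.commutes, div_self hb0]
  have ht : (algebraMap F M (ζ ^ s)) ^ p = 1 := by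
    rw [← map_pow, ← pow_mul, mul_comm, pow_mul, hζ.pow_eq_one, one_pow, map_one]
  have ht1 : w.valuation M (algebraMap F M (ζ ^ s)) = 1 := val_root (p := p) (by rw [ht, map_one])
  have ht0 : algebraMap F M (ζ ^ s) ≠ 0 := by
    intro h0
    rw [h0, map_zero] at ht1
    exact zero_ne_one ht1
  have h2 : w.valuation M (g ρ / ρ - algebraMap F M (ζ ^ s)) < 1 := by
    have e1 : ρ ^ N = ρ * algebraMap F M (b ^ ((N - 1) / p)) := by
      rw [map_pow, ← hρ, ← pow_mul, Nat.mul_div_cancel' hN, ← pow_succ']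
      congr 1
      omega
    have e : g ρ / ρ - algebraMap F M (ζ ^ s) = (g ρ - ρ ^ N) / ρ +
        algebraMap F M (b ^ ((N - 1) / p) - ζ ^ s) := by
      rw [e1, map_sub]
      field_simp
      ring
    rw [e]
    refine (Valuation.map_add _ _ _).trans_lt (max_lt ?_ ((val_lt hw).2 hs))
    rw [map_div₀, hρ1, div_one]
    exact frob_val hg hρ1.le
  have h3 : g ρ / ρ / algebraMap F M (ζ ^ s) = 1 := by
    apply Pool.Agent.Q16.EX.root_eq_one (val_p hv hw)
    · rw [div_pow, h1, ht, div_one]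
    · have e : g ρ / ρ / algebraMap F M (ζ ^ s) - 1 =
          (g ρ / ρ - algebraMap F M (ζ ^ s)) / algebraMap F M (ζ ^ s) := by
        rw [sub_div, div_self ht0]
      rw [e, map_div₀ (w.valuation M) (g ρ / ρ - _), ht1, div_one]
      exact h2
  rwa [div_eq_one_iff_eq ht0] at h3

end

section

variable {p : ℕ} [Fact p.Prime] {F M : Type} [Field F] [NumberField F] [Field M] [NumberField M]
  [Algebra F M] {ζ c : F}

/-- the primes outside `R` are unramified -/
theorem unram (hB : S_BAS) (hζ : IsPrimitiveRoot ζ p) (hc : ¬ IsPow p c) (hK : Kum p F M c)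
    [IsGalois F M] {v : HeightOneSpectrum (𝓞 F)} (hv : ¬ Dp p v) (hvc : vl p v c = 0) :
    Unramified M v := by
  have hc0 := d_ne hc
  obtain ⟨r, hr⟩ := hK.root
  obtain ⟨-, hsy, -⟩ := (hB p F v).2.2.2.2.2.2 hv ζ hζ
  obtain ⟨x, hx1, -⟩ := (hsy c hc0 hvc _).2 rfl
  have hx0 : x ≠ 0 := by
    rintro rfl
    rw [zero_pow (Fact.out : p.Prime).ne_zero, mul_zero, map_zero] at hx1
    exact zero_ne_one hx1
  apply Pool.Agent.Q16.EX.unr_of_inertia
  intro w hw g hg
  have h1 := inertia_fix hv hw hx1 (ρ := r * algebraMap F M x)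
    (by rw [mul_pow, hr, ← map_pow, ← map_mul]) hg
  rw [map_mul, g.commutes] at h1
  have h2 : g r = r := mul_right_cancel₀ ((_root_.map_ne_zero _).2 hx0) h1
  have h3 : (g : M →+* M) = RingHom.id M := by
    refine hom_ext hK hc hr _ _ (fun y => ?_) ?_
    · exact g.commutes y
    · exact h2
  ext y
  exact DFunLike.congr_fun h3 y

/-- the Frobenius elements -/
theorem frob_root (hB : S_BAS) (hζ : IsPrimitiveRoot ζ p) (hc : ¬ IsPow p c) [IsGalois F M] {r : M}
    (hr : r ^ p = algebraMap F M c) {v : HeightOneSpectrum (𝓞 F)} (hv : ¬ Dp p v)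
    (hvc : vl p v c = 0) : frob M v r / r = algebraMap F M (ζ ^ (sy p ζ v c).val) := by
  have hc0 := d_ne hc
  obtain ⟨hN, hsy, -⟩ := (hB p F v).2.2.2.2.2.2 hv ζ hζ
  obtain ⟨x, hx1, hx2⟩ := (hsy c hc0 hvc _).2 rfl
  have hx0 : x ≠ 0 := by
    rintro rfl
    rw [zero_pow (Fact.out : p.Prime).ne_zero, mul_zero, map_zero] at hx1
    exact zero_ne_one hx1
  obtain ⟨W, hWm, hWv, hW⟩ := frob_spec (M := M) v
  have hW0 : W ≠ ⊥ := by
    rintro rfl
    apply v.ne_bot
    rw [← hWv, eq_bot_iff]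
    intro y hy
    rw [Ideal.mem_comap, Ideal.mem_bot] at hy
    rw [Ideal.mem_bot]
    exact (map_eq_zero_iff _ (FaithfulSMul.algebraMap_injective (𝓞 F) (𝓞 M))).1 hy
  obtain ⟨w, hw⟩ : ∃ w : HeightOneSpectrum (𝓞 M), w.asIdeal = W := ⟨⟨W, hWm.isPrime, hW0⟩, rfl⟩
  have hwv : w.under (𝓞 F) = v := by
    apply HeightOneSpectrum.ext
    rw [← hWv, ← hw]
    rfl
  have hg : ∀ x : 𝓞 M, w.valuation M (frob M v (x : M) - (x : M) ^ Ideal.absNorm v.asIdeal) < 1 := by
    intro x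
    obtain ⟨y, hy, hyx⟩ := hW x
    rw [← hyx]
    rw [← hw] at hy
    exact (w.valuation_lt_one_iff_mem (K := M) y).2 hy
  have hN1 : 1 ≤ Ideal.absNorm v.asIdeal := by
    have := v.asIdeal.absNorm_eq_zero_iff
    rcases Nat.eq_zero_or_pos (Ideal.absNorm v.asIdeal) with h | h
    · exact absurd (this.1 h) v.ne_bot
    · exact h
  have h1 := frob_act hζ hv hwv hx1 (ρ := r * algebraMap F M x)
    (by rw [mul_pow, hr, ← map_pow, ← map_mul]) hN1 hN hg hx2
  rw [map_mul, (frob M v).commutes, mul_div_mul_right _ _ ((_root_.map_ne_zero _).2 hx0)] at h1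
  exact h1

end

/-- JOB HS1A from the law of reciprocity -/
theorem hs1a_of (hAR : S_AR) (hNRM : S_NRM) (hG : S_GOOD) : S_BAS → S_HS1A := by
  classical
  intro hB p _ hp2 F _ _ ζ hζ c hc0 hc
  have hp : p.Prime := Fact.out
  obtain ⟨R, hR⟩ : ∃ R : Set (HeightOneSpectrum (𝓞 F)), R = {v | Dp p v ∨ vl p v c ≠ 0} := ⟨_, rfl⟩
  have hfv : ∀ x : F, x ≠ 0 → {v : HeightOneSpectrum (𝓞 F) | vl p v x ≠ 0}.Finite := by
    intro x hx
    refine (prin (Units.mk0 x hx)).support.finite_toSet.subset fun v hv => ?_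
    rw [Finset.mem_coe, Finsupp.mem_support_iff]
    intro h0
    apply hv
    have h1 := vl_eq (p := p) v (Units.mk0 x hx)
    rw [Units.val_mk0, h0, Int.cast_zero] at h1
    exact h1
  have hRf : R.Finite := by
    have h1 : R ⊆ {v | (p : 𝓞 F) ∈ v.asIdeal} ∪ {v | vl p v c ≠ 0} := by
      rw [hR]
      rintro v (h | h)
      · exact Or.inl h
      · exact Or.inr h
    exact ((Pool.Agent.Q125.AR.finite_dvd hp.ne_zero).union (hfv c hc0)).subset h1
  refine ⟨hR ▸ hRf, ?_⟩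
  obtain ⟨M, _, _, _, hK, hgal⟩ := exists_kumfield hζ hc
  obtain ⟨r, hr⟩ := hK.root
  have hinj : Function.Injective (algebraMap F M) := (algebraMap F M).injective
  have hr0 : r ≠ 0 := by
    rintro rfl
    rw [zero_pow hp.ne_zero] at hr
    exact hc0 ((map_eq_zero _).1 hr.symm)
  obtain ⟨ι⟩ : Nonempty (M →+* ℂ) := inferInstance
  have hnz : NeZero p := ⟨hp.ne_zero⟩
  have hζM : IsPrimitiveRoot (algebraMap F M ζ) p := hζ.map_of_injective hinj
  have hfix : ∀ g h : M ≃ₐ[F] M, g (h ((Units.mk0 r hr0 : Mˣ) : M) / ((Units.mk0 r hr0 : Mˣ) : M)) =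
      h ((Units.mk0 r hr0 : Mˣ) : M) / ((Units.mk0 r hr0 : Mˣ) : M) := by
    intro g h
    rw [Units.val_mk0]
    have h1 : (h r / r) ^ p = 1 := by
      rw [div_pow, ← map_pow, hr, h.commutes, div_self ((_root_.map_ne_zero _).2 hc0)]
    obtain ⟨i, -, hi⟩ := hζM.eq_pow_of_pow_eq_one h1
    rw [← hi, map_pow, g.commutes]
  obtain ⟨ψ, hψ⟩ : ∃ ψ : (M ≃ₐ[F] M) →* ℂˣ, ∀ g, ((ψ g : ℂˣ) : ℂ) = ι (g r / r) :=
    ⟨Pool.Agent.Q16.EX.kumHom ι (Units.mk0 r hr0) hfix, fun g =>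
      Pool.Agent.Q16.EX.kumHom_apply ι (Units.mk0 r hr0) hfix g⟩
  have hζC : IsPrimitiveRoot (ι (algebraMap F M ζ)) p := hζM.map_of_injective ι.injective
  have hz0 : ι (algebraMap F M ζ) ≠ 0 := hζC.ne_zero hp.ne_zero
  obtain ⟨z, hz⟩ : ∃ z : ℂˣ, (z : ℂ) = ι (algebraMap F M ζ) := ⟨Units.mk0 _ hz0, rfl⟩
  have hzp : IsPrimitiveRoot z p := by
    rw [← IsPrimitiveRoot.coe_units_iff, hz]
    exact hζC
  -- the modulus
  obtain ⟨N0, hN0, -, hN0'⟩ := hAR F M ψ
  have hbase : Gd (art ψ) ({v | (N0 : 𝓞 F) ∈ v.asIdeal} ∩ Set.univ) :=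
    Gd.of_cong hN0 fun x hx => hN0' x ⟨fun v hv => hx v trivial hv, no_real hp2 hζ _⟩
  obtain ⟨T, ⟨-, k, hk⟩, hTR⟩ := hbase.remove (R := R) fun v hv => by
    have hv' : ¬ Dp p v ∧ vl p v c = 0 := by
      rw [hR, Set.mem_ofPred_eq, not_or, not_not] at hv
      exact hv
    obtain ⟨N, hN, -, hN'⟩ := hG hNRM F M ψ v (unram hB hζ hc hK hv'.1 hv'.2)
    exact ⟨_, Gd.of_cong hN fun x hx => hN' x (no_real hp2 hζ _) hx, fun h => h.2 rfl⟩
  refine ⟨k, fun x hx hxk => ⟨hfv x hx, ?_⟩⟩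
  obtain ⟨X, hX⟩ : ∃ X : Fˣ, (X : F) = x := ⟨Units.mk0 x hx, rfl⟩
  have h1 : art ψ (prin X) = 0 := hk X fun v hv => by
    rw [hX]
    apply hxk
    have := hTR hv
    rwa [hR] at this
  have hXR : ∀ v ∈ R, prin X v = 0 := by
    intro v hv
    rw [hR] at hv
    have h2 := val_one_of_close ((hxk v hv).trans_le (exp_le_one _))
    rw [← hX, Pool.Agent.Q125.AR.valuation_eq_exp, ← WithZero.exp_zero, WithZero.exp_inj] at h2
    omega
  have hfr : ∀ v ∉ R, ψ (frob M v) = z ^ (sy p ζ v c).val := by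
    intro v hv
    rw [hR, Set.mem_ofPred_eq, not_or, not_not] at hv
    apply Units.ext
    rw [hψ, frob_root hB hζ hc hr hv.1 hv.2, Units.val_pow_eq_pow_val, hz, map_pow, map_pow]
  have h2 : art ψ (prin X) = (∑ v ∈ (prin X).support, prin X v * ((sy p ζ v c).val : ℤ)) •
      Additive.ofMul z := by
    unfold art
    rw [Finsupp.liftAddHom_apply, Finsupp.sum]
    change _ = (zmultiplesHom (Additive ℂˣ)) (Additive.ofMul z)
      (∑ v ∈ (prin X).support, prin X v * ((sy p ζ v c).val : ℤ))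
    rw [map_sum]
    refine Finset.sum_congr rfl fun v hv => ?_
    have hvR : v ∉ R := fun h => (Finsupp.mem_support_iff.1 hv) (hXR v h)
    change prin X v • Additive.ofMul (ψ (frob M v)) =
      (prin X v * ((sy p ζ v c).val : ℤ)) • Additive.ofMul z
    rw [hfr v hvR, ofMul_pow, mul_smul, natCast_zsmul]
  rw [h2] at h1
  have h3 : z ^ (∑ v ∈ (prin X).support, prin X v * ((sy p ζ v c).val : ℤ)) = 1 := by
    have := congrArg Additive.toMul h1
    exact this
  rw [hzp.zpow_eq_one_iff_dvd, ← ZMod.intCast_zmod_eq_zero_iff_dvd] at h3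
  have h4 : ∑ v ∈ (prin X).support, vl p v x * sy p ζ v c = 0 := by
    rw [← h3]
    push_cast
    refine Finset.sum_congr rfl fun v _ => ?_
    rw [← hX, vl_eq, ZMod.natCast_zmod_val]
  have h5 : ∑ᶠ v : {v : HeightOneSpectrum (𝓞 F) // ¬ (Dp p v ∨ vl p v c ≠ 0)},
      vl p v.1 x * sy p ζ v.1 c = ∑ᶠ v ∈ Rᶜ, vl p v x * sy p ζ v c := by
    rw [← finsum_set_coe_eq_finsum_mem, hR]
    rfl
  rw [h5]
  refine Eq.trans ?_ h4
  apply finsum_mem_eq_sum_of_inter_support_eq
  ext v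
  constructor
  · rintro ⟨hv, hv'⟩
    refine ⟨?_, hv'⟩
    rw [Finset.mem_coe, Finsupp.mem_support_iff]
    intro h0
    apply hv'
    simp only [← hX, vl_eq, h0, Int.cast_zero, zero_mul]
  · rintro ⟨hv, hv'⟩
    refine ⟨fun h => ?_, hv'⟩
    exact (Finsupp.mem_support_iff.1 hv) (hXR v h)

end Pool.Agent.Q150.LK
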