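import Pool.Agent.Q150.LK.Emb

/-!
# Project LK (helper7): cyclic extensions of degree `p`
-/

set_option autoImplicit false

namespace Pool.Agent.Q150.LK

open NumberField IsDedekindDomain Finset Polynomial
open Pool.Agent.Q7.LK

section

variable {p : ℕ} [Fact p.Prime] {F L : Type} [Field F] [NumberField F] [Field L] [NumberField L]
  [Algebra F L] {ζ d : F}

theorem d_ne (hd : ¬ IsPow p d) : d ≠ 0 := by
  rintro rfl
  exact hd ⟨0, by rw [zero_pow (Fact.out : p.Prime).ne_zero]⟩

theorem irr (hd : ¬ IsPow p d) : Irreducible (X ^ p - C d : F[X]) :=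
  X_pow_sub_C_irreducible_of_prime Fact.out fun b hb => hd ⟨b, hb.symm⟩

theorem adjoin_top (hK : Kum p F L d) (hd : ¬ IsPow p d) {ρ : L} (hρ : ρ ^ p = algebraMap F L d) :
    IntermediateField.adjoin F {ρ} = ⊤ := by
  have hp : p ≠ 0 := (Fact.out : p.Prime).ne_zero
  have hfd : FiniteDimensional F L := Module.Finite.of_restrictScalars_finite ℚ F L
  have hmin : (X ^ p - C d : F[X]) = minpoly F ρ := by
    apply minpoly.eq_of_irreducible_of_monic (irr hd)
    · simp [hρ]
    · exact monic_X_pow_sub_C d hp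
  have h1 : Module.finrank F (IntermediateField.adjoin F {ρ}) = Module.finrank F L := by
    rw [IntermediateField.adjoin.finrank (Algebra.IsIntegral.isIntegral ρ), ← hmin, hK.deg,
      natDegree_X_pow_sub_C]
  exact IntermediateField.eq_of_le_of_finrank_eq le_top (by rw [h1, IntermediateField.finrank_top'])

/-- two field homomorphisms which agree on `F` and on `ρ` are equal -/
theorem hom_ext {Ω : Type*} [Field Ω] (hK : Kum p F L d) (hd : ¬ IsPow p d) {ρ : L}
    (hρ : ρ ^ p = algebraMap F L d) (f g : L →+* Ω)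
    (h1 : ∀ x : F, f (algebraMap F L x) = g (algebraMap F L x)) (h2 : f ρ = g ρ) : f = g := by
  let S : IntermediateField F L := (RingHom.eqLocusField f g).toIntermediateField h1
  have h3 : IntermediateField.adjoin F {ρ} ≤ S := by
    rw [IntermediateField.adjoin_le_iff, Set.singleton_subset_iff]
    exact h2
  rw [adjoin_top hK hd hρ] at h3
  ext x
  exact h3 (IntermediateField.mem_top (x := x))

/-- the structure of the extension -/
structure Str (p : ℕ) (F L : Type) [Field F] [NumberField F] [Field L] [NumberField L]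
    [Algebra F L] (ζ d : F) (σ : L ≃ₐ[F] L) (ρ : L) (a : ℕ) : Prop where
  pow : ρ ^ p = algebraMap F L d
  ne : ρ ≠ 0
  act : σ ρ = algebraMap F L (ζ ^ a) * ρ
  prim : IsPrimitiveRoot (ζ ^ a) p
  gal : IsGalois F L
  gen : ∀ g : L ≃ₐ[F] L, g ∈ Subgroup.zpowers σ
  norm : ∀ x : L, algebraMap F L (Algebra.norm F x) = ∏ i ∈ range p, (σ ^ i) x
  trace : ∀ x : L, algebraMap F L (Algebra.trace F L x) = ∑ i ∈ range p, (σ ^ i) x

theorem exists_str (hζ : IsPrimitiveRoot ζ p) (hK : Kum p F L d) (hd : ¬ IsPow p d)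
    (σ : L ≃ₐ[F] L) (hσ : σ ≠ 1) : ∃ (ρ : L) (a : ℕ), Str p F L ζ d σ ρ a := by
  classical
  have hp : p.Prime := Fact.out
  have hd0 := d_ne hd
  obtain ⟨ρ, hρ⟩ := hK.root
  have hρ0 : ρ ≠ 0 := by
    rintro rfl
    rw [zero_pow hp.ne_zero] at hρ
    exact hd0 ((map_eq_zero _).1 hρ.symm)
  have hζL : IsPrimitiveRoot (algebraMap F L ζ) p := hζ.map_of_injective (algebraMap F L).injective
  have h1 : (σ ρ / ρ) ^ p = 1 := by
    rw [div_pow, ← map_pow, hρ, σ.commutes, div_self ((_root_.map_ne_zero _).2 hd0)]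
  have : NeZero p := ⟨hp.ne_zero⟩
  obtain ⟨a, -, ha⟩ := hζL.eq_pow_of_pow_eq_one h1
  have hact : σ ρ = algebraMap F L (ζ ^ a) * ρ := by
    rw [map_pow, ha, div_mul_cancel₀ _ hρ0]
  have hne1 : ζ ^ a ≠ 1 := by
    intro h
    apply hσ
    have h2 : (σ : L →+* L) = RingHom.id L := by
      refine hom_ext hK hd hρ _ _ (fun x => ?_) ?_
      · exact σ.commutes x
      · change σ ρ = ρ
        rw [hact, h, map_one, one_mul]
    ext x
    exact DFunLike.congr_fun h2 x
  have hprim : IsPrimitiveRoot (ζ ^ a) p := by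
    refine hζ.pow_of_coprime a ?_
    rw [Nat.coprime_comm, hp.coprime_iff_not_dvd]
    intro h
    exact hne1 ((hζ.pow_eq_one_iff_dvd a).2 h)
  have hpow : ∀ i : ℕ, (σ ^ i) ρ = algebraMap F L ((ζ ^ a) ^ i) * ρ := by
    intro i
    induction i with
    | zero => simp
    | succ i ih =>
      rw [pow_succ', AlgEquiv.mul_apply, ih, map_mul, σ.commutes, hact, ← mul_assoc, ← map_mul,
        ← pow_succ]
  have hord : orderOf σ = p := by
    refine orderOf_eq_prime ?_ hσ
    have h2 : ((σ ^ p : L ≃ₐ[F] L) : L →+* L) = RingHom.id L := by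
      refine hom_ext hK hd hρ _ _ (fun x => ?_) ?_
      · exact (σ ^ p : L ≃ₐ[F] L).commutes x
      · change (σ ^ p) ρ = ρ
        rw [hpow, hprim.pow_eq_one, map_one, one_mul]
    ext x
    exact DFunLike.congr_fun h2 x
  have hfd : FiniteDimensional F L := Module.Finite.of_restrictScalars_finite ℚ F L
  have hle : Nat.card (L ≃ₐ[F] L) ≤ p := by
    rw [Nat.card_eq_fintype_card, ← hK.deg]
    exact AlgEquiv.card_le
  have hge : p ≤ Nat.card (L ≃ₐ[F] L) := by
    rw [← hord]
    exact Nat.le_of_dvd Nat.card_pos (orderOf_dvd_natCard σ)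
  have hcard : Nat.card (L ≃ₐ[F] L) = p := le_antisymm hle hge
  have hgal : IsGalois F L := IsGalois.of_card_aut_eq_finrank F L (by rw [hcard, hK.deg])
  have hgen : ∀ g : L ≃ₐ[F] L, g ∈ Subgroup.zpowers σ := by
    intro g
    have h2 : Subgroup.zpowers σ = ⊤ := by
      apply Subgroup.eq_top_of_card_eq
      rw [Nat.card_zpowers, hord, hcard]
    rw [h2]
    trivial
  have himg : Finset.image (fun i => σ ^ i) (range p) = univ := by
    rw [← hord]
    exact IsCyclic.image_range_orderOf hgen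
  have hinj : Set.InjOn (fun i => σ ^ i) (range p : Set ℕ) := by
    intro i hi j hj hij
    rw [Finset.coe_range, Set.mem_Iio, ← hord] at hi hj
    exact pow_injOn_Iio_orderOf hi hj hij
  refine ⟨ρ, a, ⟨hρ, hρ0, hact, hprim, hgal, hgen, fun x => ?_, fun x => ?_⟩⟩
  · rw [Algebra.norm_eq_prod_automorphisms, ← himg, Finset.prod_image hinj]
  · rw [trace_eq_sum_automorphisms, ← himg, Finset.sum_image hinj]

theorem Str.pow_act {σ : L ≃ₐ[F] L} {ρ : L} {a : ℕ} (h : Str p F L ζ d σ ρ a) (i : ℕ) :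
    (σ ^ i) ρ = algebraMap F L ((ζ ^ a) ^ i) * ρ := by
  induction i with
  | zero => simp
  | succ i ih =>
    rw [pow_succ', AlgEquiv.mul_apply, ih, map_mul, σ.commutes, h.act, ← mul_assoc, ← map_mul,
      ← pow_succ]

theorem Str.norm_root (hp2 : p ≠ 2) {σ : L ≃ₐ[F] L} {ρ : L} {a : ℕ} (h : Str p F L ζ d σ ρ a) :
    Algebra.norm F ρ = d := by
  apply (algebraMap F L).injective
  rw [h.norm, Finset.prod_congr rfl fun i _ => h.pow_act i, Finset.prod_mul_distrib,
    Finset.prod_const, Finset.card_range, h.pow]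
  have h1 : ∏ i ∈ range p, algebraMap F L ((ζ ^ a) ^ i) = 1 := by
    rw [← map_prod, Finset.prod_pow_eq_pow_sum]
    obtain ⟨k, hk⟩ := (Fact.out : p.Prime).odd_of_ne_two hp2
    have h2 : ∑ i ∈ range p, i = p * k := by
      have h3 := Finset.sum_range_id_mul_two p
      have h4 : p - 1 = 2 * k := by omega
      rw [h4] at h3
      have : p * (2 * k) = (p * k) * 2 := by ring
      omega
    rw [h2, pow_mul, h.prim.pow_eq_one, one_pow, map_one]
  rw [h1, one_mul]

end

end Pool.Agent.Q150.LK
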